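import Pool.Agent.U121.VC.Yes

set_option autoImplicit false
set_option linter.unusedSectionVars false
set_option linter.unusedVariables false

/-!
U121/VC (helper121, MP_cff830_lc): circuits of polynomial size.
-/

namespace Pool.Agent.U121.VC

open Finset Filter

lemma poly_log (K : ℝ) (n : ℕ) {ε : ℝ} (hε : 0 < ε) :
    ∀ᶠ N : ℕ in atTop, (K * Real.log N) ^ n ≤ (N : ℝ) ^ ε := by
  have h1 := (Real.isLittleO_pow_log_id_atTop (n := n)).comp_tendsto
    (tendsto_rpow_atTop hε)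
  have h2 := h1.comp_tendsto tendsto_natCast_atTop_atTop
  have h3 := h2.bound (c := 1 / ((|K| / ε) ^ n + 1)) (by positivity)
  filter_upwards [h3, eventually_ge_atTop 1] with N hN hN1
  have hN1r : (1 : ℝ) ≤ N := by exact_mod_cast hN1
  have hlog : 0 ≤ Real.log N := Real.log_nonneg hN1r
  simp only [Function.comp, id] at hN
  rw [Real.log_rpow (by linarith), Real.norm_of_nonneg (by positivity),
    Real.norm_of_nonneg (by positivity)] at hN
  have hC : 0 ≤ (|K| / ε) ^ n := by positivity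
  calc (K * Real.log N) ^ n ≤ |(K * Real.log N) ^ n| := le_abs_self _
    _ = (|K| / ε) ^ n * (ε * Real.log N) ^ n := by
        rw [abs_pow, abs_mul, abs_of_nonneg hlog, ← mul_pow]
        congr 1
        field_simp
    _ ≤ (|K| / ε) ^ n * (1 / ((|K| / ε) ^ n + 1) * (N : ℝ) ^ ε) :=
        mul_le_mul_of_nonneg_left hN hC
    _ = ((|K| / ε) ^ n / ((|K| / ε) ^ n + 1)) * (N : ℝ) ^ ε := by ring
    _ ≤ 1 * (N : ℝ) ^ ε := by
        apply mul_le_mul_of_nonneg_right _ (by positivity)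
        rw [div_le_one (by positivity)]
        linarith
    _ = _ := one_mul _

/-- the bound for `X` if the size is polynomial -/
lemma poly_size (h d : ℕ) (X0 : ℝ) {ε : ℝ} (hε : 0 < ε) :
    ∃ N0 : ℕ, ∀ N S : ℕ, N0 ≤ N → S ≤ N ^ d → ∀ X : ℝ,
      (X0 ≤ X → (2 : ℝ) ^ (X ^ (1 / (h + 1 : ℝ)) / 100) ≤ S * N) → X ≤ (N : ℝ) ^ ε := by
  have h1 := poly_log (100 * (d + 1) / Real.log 2) (h + 1) hε
  have h2 : ∀ᶠ N : ℕ in atTop, X0 ≤ (N : ℝ) ^ ε :=
    ((tendsto_rpow_atTop hε).comp tendsto_natCast_atTop_atTop).eventually_ge_atTop X0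
  obtain ⟨N0, hN0⟩ := eventually_atTop.1 (h1.and (h2.and (eventually_ge_atTop 1)))
  refine ⟨N0, fun N S hN hS X hX => ?_⟩
  obtain ⟨h3, h4, h5⟩ := hN0 N hN
  rcases le_or_gt X0 X with h6 | h6
  · have h7 := hX h6
    have hN1 : (1 : ℝ) ≤ N := by exact_mod_cast h5
    rcases le_or_gt X 0 with hX0 | hX0
    · exact hX0.trans (by positivity)
    have h8 : ((S : ℝ)) * N ≤ (N : ℝ) ^ (d + 1) := by
      rw [pow_succ]
      apply mul_le_mul_of_nonneg_right _ (by positivity)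
      exact_mod_cast hS
    have h9 := h7.trans h8
    have hlog2 : 0 < Real.log 2 := Real.log_pos (by norm_num)
    have h10 := Real.log_le_log (by positivity) h9
    rw [Real.log_rpow (by norm_num), Real.log_pow] at h10
    have h11 : X ^ (1 / (h + 1 : ℝ)) ≤ 100 * (d + 1) / Real.log 2 * Real.log N := by
      push_cast at h10
      have h12 : X ^ (1 / (h + 1 : ℝ)) / 100 ≤ (d + 1) * Real.log N / Real.log 2 := by
        rw [le_div_iff₀ hlog2]
        exact h10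
      calc X ^ (1 / (h + 1 : ℝ)) = 100 * (X ^ (1 / (h + 1 : ℝ)) / 100) := by ring
        _ ≤ 100 * ((d + 1) * Real.log N / Real.log 2) :=
            mul_le_mul_of_nonneg_left h12 (by norm_num)
        _ = _ := by ring
    have h12 : X = (X ^ (1 / (h + 1 : ℝ))) ^ (h + 1) := by
      rw [← Real.rpow_natCast, ← Real.rpow_mul hX0.le]
      push_cast
      rw [one_div, inv_mul_cancel₀ (by positivity), Real.rpow_one]
    rw [h12]
    exact (pow_le_pow_left₀ (by positivity) h11 _).trans h3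
  · exact h6.le.trans h4

lemma ev_lt (K : ℝ) {α β : ℝ} (h : α < β) :
    ∀ᶠ N : ℕ in atTop, K * (N : ℝ) ^ α < (N : ℝ) ^ β := by
  have h1 : ∀ᶠ N : ℕ in atTop, K < (N : ℝ) ^ (β - α) :=
    ((tendsto_rpow_atTop (by linarith : 0 < β - α)).comp
      tendsto_natCast_atTop_atTop).eventually_gt_atTop K
  filter_upwards [h1, eventually_ge_atTop 1] with N hN hN1
  have hN1r : (0 : ℝ) < N := by exact_mod_cast hN1
  have h2 : 0 < (N : ℝ) ^ α := by positivity
  calc K * (N : ℝ) ^ α < (N : ℝ) ^ (β - α) * (N : ℝ) ^ α := mul_lt_mul_of_pos_right hN h2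
    _ = (N : ℝ) ^ β := by rw [← Real.rpow_add hN1r]; congr 1; ring

/-- the number of ones is even -/
def par {N : ℕ} (x : Fin N → Bool) : Bool := decide (Even (univ.filter fun i => x i = true).card)

open DomAC0 Pool.Agent.U47.AC

open scoped Classical

lemma par_sens (N : ℕ) : (N : ℝ) ≤ avgSens (univ : Finset (Fin N → Bool)) par := by
  have h := parity_sens (univ : Finset (Fin N)) (univ : Finset (Fin N → Bool)) par 0 (by simp) (by
    intro x _
    unfold par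
    rw [decide_eq_true_iff, Nat.not_odd_iff_even])
  simpa using h

theorem parity_cor (h d c : ℕ) {ε : ℝ} (hε : 0 < ε) (hε1 : ε ≤ 1) : ∃ N0 : ℕ, ∀ N : ℕ, N0 ≤ N →
    ∀ {V : Type} [Fintype V] {C : Circuit (Fin N)} {G : (Fin N → Bool) → SimpleGraph V}
      {w : (Fin N → Bool) → V → ℝ} {k ρ₀ : ℝ}, C.size ≤ N ^ d → Data h C G w univ par k ρ₀ →
      ρ₀ < 2 + ε ∧
      (2 - 1 / (40 * (c + 1)) ≤ ρ₀ → (N : ℝ) ^ c ≤ Fintype.card V) ∧
      (1 + ε ≤ ρ₀ → ∀ Δ : ℝ, 1 ≤ Δ → (∀ x, par x = false → ∀ u,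
        ((univ.filter fun v => (G x).Adj u v).card : ℝ) ≤ Δ) → (N : ℝ) ^ (1 - ε) ≤ Δ) ∧
      (1 + ε ≤ ρ₀ → (∀ x v, w x v = 1) → ε * Fintype.card V ≤ k →
        (N : ℝ) ^ (2 - ε) ≤ Fintype.card V) := by
  obtain ⟨Xa, hXa, ha⟩ := no_main h
  obtain ⟨Xb, hXb, hb⟩ := yes_main h
  obtain ⟨c', hc'⟩ : ∃ c' : ℕ, c' = c + 1 := ⟨_, rfl⟩
  have hc1 : 1 ≤ c' := by omega
  have hc1r : (1 : ℝ) ≤ c' := by exact_mod_cast hc1
  have hcc : (c' : ℝ) = c + 1 := by rw [hc']; push_cast; rfl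
  obtain ⟨n1, p1⟩ := poly_size h d Xa (show (0 : ℝ) < 1 / 2 by norm_num)
  obtain ⟨n2, p2⟩ := poly_size h d Xa (show (0 : ℝ) < 1 / (2 * c') by positivity)
  obtain ⟨n3, p3⟩ := poly_size h d Xa (show (0 : ℝ) < ε / 2 by positivity)
  obtain ⟨n4, p4⟩ := poly_size h d Xb (show (0 : ℝ) < ε / 4 by positivity)
  obtain ⟨m1, e1⟩ := eventually_atTop.1 (ev_lt (6 * (2 + ε) / ε) (show (1 / 2 : ℝ) < 1 by norm_num))
  obtain ⟨m2, e2⟩ := eventually_atTop.1 (ev_lt (24000 * c' ^ 3)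
    (show (1 - 1 / (2 * (c' : ℝ))) < 1 by
      have : (0 : ℝ) < 1 / (2 * c') := by positivity
      linarith))
  obtain ⟨m3, e3⟩ := eventually_atTop.1 (ev_lt (12 * (1 + ε) / ε)
    (show 1 - ε < 1 - ε / 2 by linarith))
  obtain ⟨m4, e4⟩ := eventually_atTop.1 (ev_lt (12 + 24 / ε)
    (show 1 - ε / 4 < 1 by linarith))
  refine ⟨1 + (n1 + n2 + n3 + n4 + m1 + m2 + m3 + m4), fun N hN V _ C G w k ρ₀ hS hD => ?_⟩
  have q1 := e1 N (by omega)
  have q2 := e2 N (by omega)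
  have q3 := e3 N (by omega)
  have q4 := e4 N (by omega)
  have hN1 : (1 : ℝ) ≤ N := by exact_mod_cast (by omega : 1 ≤ N)
  have hN0 : (0 : ℝ) < N := by linarith
  rw [Real.rpow_one] at q1 q2 q4
  obtain ⟨a, haa⟩ : ∃ a : ℝ, a = avgSens (univ : Finset (Fin N → Bool)) par := ⟨_, rfl⟩
  have hNa : (N : ℝ) ≤ a := by rw [haa]; exact par_sens N
  refine ⟨?_, ?_, ?_, ?_⟩
  · by_contra hcon
    push Not at hcon
    have hρ0 : 0 < ρ₀ := by linarith
    have h1 := p1 N C.size (by omega) hS ((1 - 2 / ρ₀) / 6 * a) (fun hX => by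
      rw [haa] at hX ⊢
      exact ha hD _ hX (Or.inl ⟨by linarith, le_rfl⟩))
    have h2 : ε / (2 + ε) ≤ 1 - 2 / ρ₀ := by
      have h3 : 2 / ρ₀ ≤ 2 / (2 + ε) := div_le_div_of_nonneg_left (by norm_num) (by linarith) hcon
      have h4 : ε / (2 + ε) = 1 - 2 / (2 + ε) := by field_simp; ring
      linarith
    have h5 : ε / (2 + ε) / 6 * N ≤ (1 - 2 / ρ₀) / 6 * a := by
      apply mul_le_mul _ hNa hN0.le
      · have : 0 < ε / (2 + ε) := by positivity
        linarith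
      · linarith
    have h6 : 6 * (2 + ε) / ε * (ε / (2 + ε) / 6 * N) = N := by field_simp
    have h7 := mul_le_mul_of_nonneg_left (h5.trans h1) (show 0 ≤ 6 * (2 + ε) / ε by positivity)
    rw [h6] at h7
    linarith
  · intro hρ
    by_contra hcon
    push Not at hcon
    obtain ⟨n, hn⟩ : ∃ n : ℝ, n = Fintype.card V := ⟨_, rfl⟩
    rw [← hn] at hcon
    have hρ' : 2 - 1 / (40 * (c' : ℝ)) ≤ ρ₀ := by rw [hcc]; exact hρ
    have hρ0 : 0 < ρ₀ := by
      have : 1 / (40 * (c' : ℝ)) ≤ 1 := by rw [div_le_one (by positivity)]; linarith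
      linarith
    have hn1 : 1 ≤ n := by
      rw [hn]
      by_contra hlt
      push Not at hlt
      have hV : Fintype.card V = 0 := by
        have : Fintype.card V < 1 := by exact_mod_cast hlt
        omega
      have hVe : IsEmpty V := Fintype.card_eq_zero_iff.1 hV
      -- a no-instance
      have hodd : ∃ x : Fin N → Bool, par x = false := by
        refine ⟨fun i => decide (i.1 = 0), ?_⟩
        unfold par
        rw [decide_eq_false_iff_not, Nat.not_even_iff_odd]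
        have : (univ.filter fun i : Fin N => decide (i.1 = 0) = true) =
            {(⟨0, by omega⟩ : Fin N)} := by
          ext i
          simp [Fin.ext_iff]
        rw [this, card_singleton]
        exact odd_one
      obtain ⟨x, hx⟩ := hodd
      have h1 := hD.no x (mem_univ _) hx ∅ (fun u => (IsEmpty.false u).elim)
      rw [Finset.sum_empty] at h1
      have := hD.pos
      nlinarith
    obtain ⟨P, hP⟩ : ∃ P : ℝ, P = n ^ (1 / (c' : ℝ)) := ⟨_, rfl⟩
    have hP1 : 1 ≤ P := by rw [hP]; exact Real.one_le_rpow hn1 (by positivity)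
    have hP0 : 0 < P := by linarith
    have hPN : P ≤ (N : ℝ) ^ (1 - 1 / (c' : ℝ)) := by
      have h1 : P ≤ ((N : ℝ) ^ c) ^ (1 / (c' : ℝ)) := by
        rw [hP]
        exact Real.rpow_le_rpow (by linarith) hcon.le (by positivity)
      refine h1.trans (le_of_eq ?_)
      rw [← Real.rpow_natCast, ← Real.rpow_mul hN0.le]
      congr 1
      rw [hcc]
      field_simp
      ring
    have h1 := p2 N C.size (by omega) hS (a / (24000 * c' ^ 3 * P)) (fun hX => by
      rw [haa, hP, hn] at hX ⊢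
      exact ha hD _ hX (Or.inr (Or.inl ⟨c', hc1, hρ', le_rfl⟩)))
    rw [div_le_iff₀ (by positivity)] at h1
    have h2 : (N : ℝ) ≤ 24000 * c' ^ 3 * (N : ℝ) ^ (1 - 1 / (2 * (c' : ℝ))) := by
      calc (N : ℝ) ≤ a := hNa
        _ ≤ (N : ℝ) ^ (1 / (2 * (c' : ℝ))) * (24000 * c' ^ 3 * P) := h1
        _ ≤ (N : ℝ) ^ (1 / (2 * (c' : ℝ))) * (24000 * c' ^ 3 * (N : ℝ) ^ (1 - 1 / (c' : ℝ))) := by
            apply mul_le_mul_of_nonneg_left _ (by positivity)
            exact mul_le_mul_of_nonneg_left hPN (by positivity)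
        _ = 24000 * c' ^ 3 * ((N : ℝ) ^ (1 / (2 * (c' : ℝ))) * (N : ℝ) ^ (1 - 1 / (c' : ℝ))) := by
            ring
        _ = _ := by
            rw [← Real.rpow_add hN0]
            congr 2
            field_simp
            ring
    linarith
  · intro hρ Δ hΔ hdeg
    have hρ0 : 0 < ρ₀ := by linarith
    have hΔ0 : 0 < Δ := by linarith
    have h1 := p3 N C.size (by omega) hS ((1 - 1 / ρ₀) / (12 * Δ) * a) (fun hX => by
      rw [haa] at hX ⊢
      exact ha hD _ hX (Or.inr (Or.inr ⟨by linarith, Δ, hΔ, fun x _ hx => hdeg x hx, le_rfl⟩)))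
    have h2 : ε / (1 + ε) ≤ 1 - 1 / ρ₀ := by
      have h3 : 1 / ρ₀ ≤ 1 / (1 + ε) := one_div_le_one_div_of_le (by linarith) hρ
      have h4 : ε / (1 + ε) = 1 - 1 / (1 + ε) := by field_simp; ring
      linarith
    have h5 : ε / (1 + ε) / (12 * Δ) * N ≤ (1 - 1 / ρ₀) / (12 * Δ) * a := by
      have h6 : 0 < ε / (1 + ε) := by positivity
      apply mul_le_mul _ hNa hN0.le
      · have : 0 ≤ 1 - 1 / ρ₀ := by linarith
        positivity
      · exact div_le_div_of_nonneg_right h2 (by positivity)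
    have h6 := h5.trans h1
    have h7 : (N : ℝ) = (N : ℝ) ^ (1 - ε / 2) * (N : ℝ) ^ (ε / 2) := by
      rw [← Real.rpow_add hN0]
      have : 1 - ε / 2 + ε / 2 = 1 := by ring
      rw [this, Real.rpow_one]
    have hp : 0 < (N : ℝ) ^ (ε / 2) := by positivity
    have h8 : (N : ℝ) ^ (1 - ε / 2) * (ε / (1 + ε) / (12 * Δ)) ≤ 1 := by
      have h9 : ((N : ℝ) ^ (1 - ε / 2) * (ε / (1 + ε) / (12 * Δ))) * (N : ℝ) ^ (ε / 2) ≤
          1 * (N : ℝ) ^ (ε / 2) := by
        calc ((N : ℝ) ^ (1 - ε / 2) * (ε / (1 + ε) / (12 * Δ))) * (N : ℝ) ^ (ε / 2)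
            = ε / (1 + ε) / (12 * Δ) * ((N : ℝ) ^ (1 - ε / 2) * (N : ℝ) ^ (ε / 2)) := by ring
          _ = ε / (1 + ε) / (12 * Δ) * N := by rw [← h7]
          _ ≤ 1 * (N : ℝ) ^ (ε / 2) := by rw [one_mul]; exact h6
      exact le_of_mul_le_mul_right h9 hp
    have h9 : (N : ℝ) ^ (1 - ε / 2) ≤ 12 * (1 + ε) / ε * Δ := by
      have h10 : (N : ℝ) ^ (1 - ε / 2) * (ε / (1 + ε) / (12 * Δ)) =
          (N : ℝ) ^ (1 - ε / 2) / (12 * (1 + ε) / ε * Δ) := by field_simp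
      rw [h10, div_le_one (by positivity)] at h8
      exact h8
    have h10 : 12 * (1 + ε) / ε * (N : ℝ) ^ (1 - ε) ≤ 12 * (1 + ε) / ε * Δ := q3.le.trans h9
    exact le_of_mul_le_mul_left h10 (by positivity)
  · intro hρ hw1 hk
    by_contra hcon
    push Not at hcon
    obtain ⟨n, hn⟩ : ∃ n : ℝ, n = Fintype.card V := ⟨_, rfl⟩
    have hn0 : 0 ≤ n := by rw [hn]; positivity
    rw [← hn] at hcon hk
    have hk0 := hD.pos
    have hγ : 0 < ρ₀ - 1 := by linarith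
    have h1 : n * √(2 / ((ρ₀ - 1) * k)) ≤ 2 / ε * (N : ℝ) ^ (1 - ε / 2) := by
      have h2 : n * √(2 / ((ρ₀ - 1) * k)) = √(n ^ 2 * (2 / ((ρ₀ - 1) * k))) := by
        rw [Real.sqrt_mul (sq_nonneg _), Real.sqrt_sq hn0]
      have h3 : 2 / ε * (N : ℝ) ^ (1 - ε / 2) = √((2 / ε * (N : ℝ) ^ (1 - ε / 2)) ^ 2) := by
        rw [Real.sqrt_sq (by positivity)]
      rw [h2, h3]
      apply Real.sqrt_le_sqrt
      have h4 : ε ^ 2 * n ≤ (ρ₀ - 1) * k := by
        calc ε ^ 2 * n = ε * (ε * n) := by ring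
          _ ≤ (ρ₀ - 1) * k := mul_le_mul (by linarith) hk (by positivity) hγ.le
      have h5 : n ^ 2 * (2 / ((ρ₀ - 1) * k)) ≤ 2 * n / ε ^ 2 := by
        rw [← mul_div_assoc, div_le_div_iff₀ (by positivity) (by positivity)]
        calc n ^ 2 * 2 * ε ^ 2 = 2 * n * (ε ^ 2 * n) := by ring
          _ ≤ 2 * n * ((ρ₀ - 1) * k) := mul_le_mul_of_nonneg_left h4 (by positivity)
      refine h5.trans ?_
      rw [mul_pow, div_pow, ← Real.rpow_natCast ((N : ℝ) ^ (1 - ε / 2)) 2,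
        ← Real.rpow_mul hN0.le]
      have h6 : (1 - ε / 2) * ((2 : ℕ) : ℝ) = 2 - ε := by push_cast; ring
      rw [h6, div_mul_eq_mul_div]
      apply div_le_div_of_nonneg_right _ (by positivity)
      have : (0 : ℝ) ≤ (N : ℝ) ^ (2 - ε) := by positivity
      linarith
    have h2 := p4 N C.size (by omega) hS (a / (12 * (1 + n * √(2 / ((ρ₀ - 1) * k)))))
      (fun hX => by
        rw [haa, hn] at hX ⊢
        exact hb hD hw1 (by linarith) _ hX le_rfl)
    have h3 : 0 ≤ n * √(2 / ((ρ₀ - 1) * k)) := by positivity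
    rw [div_le_iff₀ (by positivity)] at h2
    have h4 : (1 : ℝ) ≤ (N : ℝ) ^ (1 - ε / 2) := Real.one_le_rpow hN1 (by linarith)
    have h5 : 12 * (1 + n * √(2 / ((ρ₀ - 1) * k))) ≤ (12 + 24 / ε) * (N : ℝ) ^ (1 - ε / 2) := by
      calc 12 * (1 + n * √(2 / ((ρ₀ - 1) * k)))
          ≤ 12 * ((N : ℝ) ^ (1 - ε / 2) + 2 / ε * (N : ℝ) ^ (1 - ε / 2)) := by linarith
        _ = (12 + 24 / ε) * (N : ℝ) ^ (1 - ε / 2) := by ring
    have h6 : (N : ℝ) ≤ (12 + 24 / ε) * (N : ℝ) ^ (1 - ε / 4) := by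
      calc (N : ℝ) ≤ a := hNa
        _ ≤ (N : ℝ) ^ (ε / 4) * (12 * (1 + n * √(2 / ((ρ₀ - 1) * k)))) := h2
        _ ≤ (N : ℝ) ^ (ε / 4) * ((12 + 24 / ε) * (N : ℝ) ^ (1 - ε / 2)) :=
            mul_le_mul_of_nonneg_left h5 (by positivity)
        _ = (12 + 24 / ε) * ((N : ℝ) ^ (ε / 4) * (N : ℝ) ^ (1 - ε / 2)) := by ring
        _ = _ := by
            rw [← Real.rpow_add hN0]
            congr 2
            ring
    linarith

end Pool.Agent.U121.VC
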