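import Pool.Agent.U47.AC.Core
import Pool.Agent.U121.RS.Prob

set_option autoImplicit false
set_option linter.unusedSectionVars false
set_option linter.unusedVariables false

/-!
U121/VC (helper121, MP_cff830_lc): the coding lemma of Paturi, Pudlak and Zane for decision trees.
-/

namespace Pool.Agent.U121.VC

open Finset DomAC0 H568R2 Pool.Agent.TH163.AC3
open Pool.Agent.Y601.SSE hiding flip

/-- the decision trees of `N` bits -/
abbrev DTree (N : ℕ) : Type := Pool.Agent.TH163.AC3.Tree (Fin N)

/-- one bit is flipped -/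
abbrev fl {N : ℕ} (i : Fin N) (x : Fin N → Bool) : Fin N → Bool := Pool.Agent.Y601.SSE.flip i x

/-! ### random sets -/

section rand

variable {V : Type*} [DecidableEq V] [Fintype V]

lemma sum_wt2 (p : ℝ) (A B : Finset V) (hAB : Disjoint A B) :
    ∑ S : Finset V, (if A ⊆ S ∧ Disjoint B S then RS.wt p S else 0) =
      p ^ A.card * (1 - p) ^ B.card := by
  have h1 := Finset.prod_add (fun i : V => if i ∈ B then 0 else p)
    (fun i => if i ∈ A then 0 else 1 - p) univ
  have h2 : ∏ i : V, ((if i ∈ B then 0 else p) + if i ∈ A then 0 else 1 - p) =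
      p ^ A.card * (1 - p) ^ B.card := by
    have e : ∀ i : V, ((if i ∈ B then 0 else p) + if i ∈ A then 0 else 1 - p) =
        (if i ∈ A then p else 1) * (if i ∈ B then 1 - p else 1) := by
      intro i
      by_cases hA : i ∈ A
      · have hB : i ∉ B := Finset.disjoint_left.1 hAB hA
        simp [hA, hB]
      · by_cases hB : i ∈ B
        · simp [hA, hB]
        · simp [hA, hB]
    rw [Finset.prod_congr rfl fun i _ => e i, Finset.prod_mul_distrib, Finset.prod_ite,
      Finset.prod_ite, Finset.prod_const, Finset.prod_const_one, mul_one, Finset.prod_const,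
      Finset.prod_const_one, mul_one, Finset.filter_mem_eq_inter, Finset.univ_inter,
      Finset.filter_mem_eq_inter, Finset.univ_inter]
  rw [h2] at h1
  rw [h1, Finset.powerset_univ]
  refine Finset.sum_congr rfl fun S _ => ?_
  by_cases h : A ⊆ S ∧ Disjoint B S
  · rw [if_pos h]
    unfold RS.wt
    congr 1
    · rw [Finset.prod_congr rfl (g := fun _ => p), Finset.prod_const]
      intro i hi
      rw [if_neg (fun g => Finset.disjoint_left.1 h.2 g hi)]
    · rw [Finset.prod_congr rfl (g := fun _ => 1 - p), Finset.prod_const, Finset.card_sdiff,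
        Finset.inter_univ, Finset.card_univ]
      intro i hi
      rw [Finset.mem_sdiff] at hi
      rw [if_neg (fun g => hi.2 (h.1 g))]
  · rw [if_neg h]
    rw [not_and_or] at h
    rcases h with h | h
    · rw [Finset.not_subset] at h
      obtain ⟨i, hi1, hi2⟩ := h
      rw [Finset.prod_eq_zero (i := i) (s := univ \ S), mul_zero]
      · rw [Finset.mem_sdiff]
        exact ⟨Finset.mem_univ _, hi2⟩
      · rw [if_pos hi1]
    · rw [Finset.not_disjoint_iff] at h
      obtain ⟨i, hi1, hi2⟩ := h
      rw [Finset.prod_eq_zero (i := i) (s := S), zero_mul]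
      · exact hi2
      · rw [if_pos hi1]

/-- Jensen's inequality for the powers of two -/
lemma jensen {ι : Type*} (s : Finset ι) (w a : ι → ℝ) (h0 : ∀ i ∈ s, 0 ≤ w i)
    (h1 : ∑ i ∈ s, w i = 1) : (2 : ℝ) ^ (∑ i ∈ s, w i * a i) ≤ ∑ i ∈ s, w i * (2 : ℝ) ^ (a i) := by
  have h := convexOn_exp.map_sum_le (t := s) (w := w) (p := fun i => a i * Real.log 2) h0 h1
    (fun i _ => Set.mem_univ _)
  simp only [smul_eq_mul] at h
  have e1 : (2 : ℝ) ^ (∑ i ∈ s, w i * a i) = Real.exp (∑ i ∈ s, w i * (a i * Real.log 2)) := by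
    rw [Real.rpow_def_of_pos (by norm_num), Finset.mul_sum]
    congr 1
    exact Finset.sum_congr rfl fun i _ => by ring
  rw [e1]
  refine h.trans (le_of_eq ?_)
  refine Finset.sum_congr rfl fun i _ => ?_
  rw [Real.rpow_def_of_pos (by norm_num), mul_comm (Real.log 2)]

end rand

/-! ### the coding lemma -/

section coding

open scoped Classical

variable {N : ℕ} {E : Type} (t : E → DTree N)

/-- the variables of `R` which are forced by the values outside of `R` -/
noncomputable def forced (R : Finset (Fin N)) (x : Fin N → Bool) : Finset (Fin N) :=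
  univ.filter fun i => i ∈ R ∧ ∃ e, (t e).eval (fl i x) = true ∧
    ∀ j ∈ (t e).reads (fl i x), j ∈ R → j = i

/-- all trees have the value `false` -/
def Sat (x : Fin N → Bool) : Prop := ∀ e, (t e).eval x = false

/-- the variables whose change makes some tree true -/
noncomputable def crit (x : Fin N → Bool) : Finset (Fin N) :=
  univ.filter fun i => ∃ e, (t e).eval (fl i x) = true

lemma flip_self (i : Fin N) (x : Fin N → Bool) : fl i x i = !(x i) := by
  unfold fl Pool.Agent.Y601.SSE.flip; simp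

lemma flip_ne {i j : Fin N} (h : j ≠ i) (x : Fin N → Bool) : fl i x j = x j := by
  unfold fl Pool.Agent.Y601.SSE.flip; rw [Function.update_of_ne h]

lemma forced_spec {R : Finset (Fin N)} {x y : Fin N → Bool} (hy : Sat t y)
    (h : ∀ j, j ∉ R → y j = x j) {i : Fin N} (hi : i ∈ forced t R x) :
    y i = x i ∧ i ∈ forced t R y := by
  unfold forced at hi
  rw [mem_filter] at hi
  obtain ⟨-, hiR, e, he, hP⟩ := hi
  have key : y i = x i := by
    by_contra hne
    have h1 : ∀ j ∈ (t e).reads (fl i x), y j = fl i x j := by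
      intro j hj
      by_cases hjR : j ∈ R
      · rw [hP j hj hjR, flip_self]
        cases h2 : y i <;> cases h3 : x i <;> simp_all
      · have hji : j ≠ i := fun g => hjR (g ▸ hiR)
        rw [flip_ne hji, h j hjR]
    have h2 := ((t e).congr _ _ h1).1
    rw [he, hy e] at h2
    exact absurd h2 (by simp)
  refine ⟨key, ?_⟩
  have h1 : ∀ j ∈ (t e).reads (fl i x), fl i y j = fl i x j := by
    intro j hj
    by_cases hjR : j ∈ R
    · rw [hP j hj hjR, flip_self, flip_self, key]
    · have hji : j ≠ i := fun g => hjR (g ▸ hiR)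
      rw [flip_ne hji, flip_ne hji, h j hjR]
  have h2 := (t e).congr _ _ h1
  unfold forced
  rw [mem_filter]
  refine ⟨mem_univ _, hiR, e, h2.1.trans he, ?_⟩
  rw [h2.2]
  exact hP

lemma forced_eq {R : Finset (Fin N)} {x y : Fin N → Bool} (hx : Sat t x) (hy : Sat t y)
    (h : ∀ j, j ∉ R → y j = x j) : forced t R y = forced t R x := by
  ext i
  exact ⟨fun hi => (forced_spec t hx (fun j hj => (h j hj).symm) hi).2,
    fun hi => (forced_spec t hy h hi).2⟩

lemma forced_count (R : Finset (Fin N)) :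
    ∑ x ∈ univ.filter (fun x => Sat t x), 2 ^ (forced t R x).card ≤ 2 ^ N := by
  have h1 : ∑ x ∈ univ.filter (fun x => Sat t x), 2 ^ (forced t R x).card =
      ((univ.filter (fun x => Sat t x)).sigma (fun x => (forced t R x).powerset)).card := by
    rw [Finset.card_sigma]
    exact Finset.sum_congr rfl fun x _ => (Finset.card_powerset _).symm
  rw [h1]
  have h2 : (univ : Finset (Fin N → Bool)).card = 2 ^ N := by simp
  rw [← h2]
  refine Finset.card_le_card_of_injOn
    (fun q : (x : Fin N → Bool) × Finset (Fin N) => fun j => if j ∈ q.2 then !(q.1 j) else q.1 j)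
    (fun _ _ => mem_univ _) ?_
  rintro ⟨x, A⟩ hq ⟨y, B⟩ hq' heq
  rw [Finset.mem_coe, Finset.mem_sigma, mem_filter, Finset.mem_powerset] at hq hq'
  obtain ⟨⟨-, hx⟩, hA⟩ := hq
  obtain ⟨⟨-, hy⟩, hB⟩ := hq'
  simp only at hx hy hA hB
  have hfR : ∀ z : Fin N → Bool, forced t R z ⊆ R := by
    intro z i hi
    unfold forced at hi
    rw [mem_filter] at hi
    exact hi.2.1
  have hj : ∀ j, (if j ∈ A then !(x j) else x j) = if j ∈ B then !(y j) else y j :=
    fun j => congrFun heq j
  have hout : ∀ j, j ∉ R → y j = x j := by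
    intro j hjR
    have h3 := hj j
    rw [if_neg (fun g => hjR (hfR _ (hA g))), if_neg (fun g => hjR (hfR _ (hB g)))] at h3
    exact h3.symm
  have hF := forced_eq t hx hy hout
  have hxy : y = x := by
    funext j
    by_cases hjF : j ∈ forced t R x
    · exact (forced_spec t hy hout hjF).1
    · have h3 := hj j
      rw [if_neg (fun g => hjF (hA g)), if_neg (fun g => hjF (hF ▸ hB g))] at h3
      exact h3.symm
  subst hxy
  have hAB : A = B := by
    ext j
    have h3 := hj j
    by_cases hA' : j ∈ A <;> by_cases hB' : j ∈ B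
    · simp [hA', hB']
    · rw [if_pos hA', if_neg hB'] at h3
      cases h4 : y j <;> simp_all
    · rw [if_neg hA', if_pos hB'] at h3
      cases h4 : y j <;> simp_all
    · simp [hA', hB']
  rw [hAB]

lemma pow_third {s : ℕ} (hs : 1 ≤ s) : (1 : ℝ) / 3 ≤ (1 - 1 / s) ^ (s - 1) := by
  obtain ⟨m, rfl⟩ : ∃ m, s = m + 1 := ⟨s - 1, by omega⟩
  rw [Nat.add_sub_cancel]
  rcases Nat.eq_zero_or_pos m with h | h
  · subst h; norm_num
  have hm : (0 : ℝ) < m := by exact_mod_cast h
  have e1 : (1 : ℝ) - 1 / ((m + 1 : ℕ) : ℝ) = (1 + 1 / (m : ℝ))⁻¹ := by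
    push_cast
    have h1 : (m : ℝ) + 1 ≠ 0 := by positivity
    have h2 : (1 : ℝ) + 1 / m ≠ 0 := by positivity
    field_simp
    ring
  rw [e1, inv_pow]
  have e2 : (1 + 1 / (m : ℝ)) ^ m ≤ 3 := by
    have h1 : (1 + 1 / (m : ℝ)) ≤ Real.exp (1 / m) := by
      have := Real.add_one_le_exp (1 / (m : ℝ))
      linarith
    calc (1 + 1 / (m : ℝ)) ^ m ≤ Real.exp (1 / m) ^ m := by
          apply pow_le_pow_left₀ (by positivity) h1
      _ = Real.exp 1 := by
          rw [← Real.exp_nat_mul]
          congr 1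
          field_simp
      _ ≤ 3 := by
          have := Real.exp_one_lt_d9
          linarith
  rw [one_div]
  exact inv_anti₀ (by positivity) e2

/-- in the mean over the random set `R`, a third of `1 / s` of the critical variables is forced -/
lemma forced_mean {s : ℕ} (hs : 1 ≤ s) (ht : ∀ e, (t e).depth ≤ s) {x : Fin N → Bool}
    (hx : Sat t x) : ((crit t x).card : ℝ) / (3 * s) ≤
      ∑ R : Finset (Fin N), RS.wt (1 / (s : ℝ)) R * ((forced t R x).card : ℝ) := by
  have hs0 : (0 : ℝ) < s := by exact_mod_cast hs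
  have hs1 : (1 : ℝ) ≤ s := by exact_mod_cast hs
  have hp0 : (0 : ℝ) ≤ 1 / s := by positivity
  have hp1 : (1 : ℝ) / s ≤ 1 := by rw [div_le_one hs0]; exact hs1
  have h1 : ∀ R : Finset (Fin N), RS.wt (1 / (s : ℝ)) R * ((forced t R x).card : ℝ) =
      ∑ i : Fin N, RS.wt (1 / (s : ℝ)) R * (if i ∈ forced t R x then 1 else 0) := by
    intro R
    rw [← Finset.mul_sum]
    congr 1
    rw [Finset.sum_ite_mem, Finset.univ_inter, Finset.sum_const, nsmul_eq_mul, mul_one]
  rw [Finset.sum_congr rfl fun R _ => h1 R, Finset.sum_comm]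
  have h2 : ∀ i ∈ crit t x, 1 / (3 * (s : ℝ)) ≤
      ∑ R : Finset (Fin N), RS.wt (1 / (s : ℝ)) R * (if i ∈ forced t R x then 1 else 0) := by
    intro i hi
    unfold crit at hi
    rw [mem_filter] at hi
    obtain ⟨-, e, he⟩ := hi
    obtain ⟨P, hP⟩ : ∃ P, P = (t e).reads (fl i x) := ⟨_, rfl⟩
    have hiP : i ∈ P := by
      by_contra hni
      have h3 := ((t e).congr (fl i x) x (fun j hj => by
        have hji : j ≠ i := fun g => hni (by rw [hP]; exact g ▸ hj)
        rw [flip_ne hji])).1
      rw [hx e, he] at h3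
      exact absurd h3 (by simp)
    have hcard : P.card ≤ s := by
      rw [hP]; exact ((t e).card_reads _).trans (ht e)
    have h3 := sum_wt2 (1 / (s : ℝ)) ({i} : Finset (Fin N)) (P.erase i) (by
      rw [Finset.disjoint_singleton_left]
      exact Finset.notMem_erase i P)
    have h4 : (1 : ℝ) / (3 * s) ≤ (1 / (s : ℝ)) ^ ({i} : Finset (Fin N)).card *
        (1 - 1 / (s : ℝ)) ^ (P.erase i).card := by
      rw [Finset.card_singleton, pow_one, Finset.card_erase_of_mem hiP]
      have h5 : (1 : ℝ) / 3 ≤ (1 - 1 / (s : ℝ)) ^ (P.card - 1) :=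
        (pow_third hs).trans (pow_le_pow_of_le_one (by linarith) (by linarith) (by omega))
      calc (1 : ℝ) / (3 * s) = 1 / s * (1 / 3) := by field_simp
        _ ≤ _ := mul_le_mul_of_nonneg_left h5 hp0
    refine h4.trans (h3.symm.trans_le (Finset.sum_le_sum fun R _ => ?_))
    have hw := RS.wt_nonneg hp0 hp1 R
    by_cases hR : {i} ⊆ R ∧ Disjoint (P.erase i) R
    · rw [if_pos hR]
      have : i ∈ forced t R x := by
        unfold forced
        rw [mem_filter]
        refine ⟨mem_univ _, Finset.singleton_subset_iff.1 hR.1, e, he, fun j hj hjR => ?_⟩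
        by_contra hne
        exact Finset.disjoint_left.1 hR.2 (Finset.mem_erase.2 ⟨hne, by rw [hP]; exact hj⟩) hjR
      rw [if_pos this, mul_one]
    · rw [if_neg hR]
      split_ifs
      · simpa using hw
      · simp
  calc ((crit t x).card : ℝ) / (3 * s) = ∑ i ∈ crit t x, 1 / (3 * (s : ℝ)) := by
        rw [Finset.sum_const, nsmul_eq_mul]; ring
    _ ≤ ∑ i ∈ crit t x, ∑ R : Finset (Fin N), RS.wt (1 / (s : ℝ)) R *
          (if i ∈ forced t R x then 1 else 0) := Finset.sum_le_sum h2
    _ ≤ _ := by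
        refine Finset.sum_le_univ_sum_of_nonneg fun i => ?_
        refine Finset.sum_nonneg fun R _ => ?_
        have hw := RS.wt_nonneg hp0 hp1 R
        split_ifs
        · rw [mul_one]; exact hw
        · rw [mul_zero]

/-- **The coding lemma.** -/
theorem coding {s : ℕ} (hs : 1 ≤ s) (ht : ∀ e, (t e).depth ≤ s) :
    ∑ x ∈ univ.filter (fun x => Sat t x), (2 : ℝ) ^ (((crit t x).card : ℝ) / (3 * s)) ≤ 2 ^ N := by
  have hs0 : (0 : ℝ) < s := by exact_mod_cast hs
  have hs1 : (1 : ℝ) ≤ s := by exact_mod_cast hs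
  have hp0 : (0 : ℝ) ≤ 1 / s := by positivity
  have hp1 : (1 : ℝ) / s ≤ 1 := by rw [div_le_one hs0]; exact hs1
  calc ∑ x ∈ univ.filter (fun x => Sat t x), (2 : ℝ) ^ (((crit t x).card : ℝ) / (3 * s))
      ≤ ∑ x ∈ univ.filter (fun x => Sat t x), ∑ R : Finset (Fin N),
          RS.wt (1 / (s : ℝ)) R * (2 : ℝ) ^ ((forced t R x).card : ℝ) := by
        refine Finset.sum_le_sum fun x hx => ?_
        rw [mem_filter] at hx
        refine (Real.rpow_le_rpow_of_exponent_le (by norm_num) (forced_mean t hs ht hx.2)).trans ?_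
        exact jensen univ _ _ (fun R _ => RS.wt_nonneg hp0 hp1 R) (RS.sum_wt_all _)
    _ = ∑ R : Finset (Fin N), RS.wt (1 / (s : ℝ)) R *
          ∑ x ∈ univ.filter (fun x => Sat t x), (2 : ℝ) ^ ((forced t R x).card : ℝ) := by
        rw [Finset.sum_comm]
        exact Finset.sum_congr rfl fun R _ => (Finset.mul_sum _ _ _).symm
    _ ≤ ∑ R : Finset (Fin N), RS.wt (1 / (s : ℝ)) R * 2 ^ N := by
        refine Finset.sum_le_sum fun R _ => ?_
        refine mul_le_mul_of_nonneg_left ?_ (RS.wt_nonneg hp0 hp1 R)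
        have h := forced_count t R
        have h' : ((∑ x ∈ univ.filter (fun x => Sat t x), 2 ^ (forced t R x).card : ℕ) : ℝ) ≤
            ((2 ^ N : ℕ) : ℝ) := by exact_mod_cast h
        push_cast at h'
        refine le_trans (le_of_eq ?_) h'
        exact Finset.sum_congr rfl fun x _ => by rw [Real.rpow_natCast]
    _ = 2 ^ N := by
        rw [← Finset.sum_mul, RS.sum_wt_all, one_mul]

end coding

end Pool.Agent.U121.VC
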