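import Pool.Agent.U121.VC.Tail

set_option autoImplicit false
set_option linter.unusedSectionVars false
set_option linter.unusedVariables false

/-!
U121/VC (helper121, MP_cff830_lc): covers of a graph from many sets each of which misses few of its
edges, such that every edge is missed by few of the sets.
-/

namespace Pool.Agent.U121.VC

open Finset

open scoped Classical

section count

variable {I : Type*} [Fintype I]

lemma count_tail (S : Finset I) (r : ℕ) : ∀ t : ℕ,
    ((univ.filter fun e : Fin r → I => t ≤ (univ.filter fun j => e j ∈ S).card).card : ℝ) =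
      (Fintype.card I : ℝ) ^ r * tail r t (S.card / Fintype.card I) := by
  rcases Nat.eq_zero_or_pos (Fintype.card I) with hI | hI
  · intro t
    have : IsEmpty I := Fintype.card_eq_zero_iff.1 hI
    cases r with
    | zero =>
      cases t with
      | zero => simp [tail_zero]
      | succ t => simp [tail_zero_succ]
    | succ r =>
      rw [hI]
      have : IsEmpty (Fin (r + 1) → I) := ⟨fun e => IsEmpty.false (e 0)⟩
      simp
  have hI' : (Fintype.card I : ℝ) ≠ 0 := by exact_mod_cast hI.ne'
  obtain ⟨q, hq⟩ : ∃ q : ℝ, q = S.card / Fintype.card I := ⟨_, rfl⟩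
  have hqS : (S.card : ℝ) = Fintype.card I * q := by rw [hq]; field_simp
  have hqSc : ((Sᶜ).card : ℝ) = Fintype.card I * (1 - q) := by
    rw [Finset.card_compl, Nat.cast_sub (Finset.card_le_univ S), hqS]
    ring
  rw [← hq]
  induction r with
  | zero =>
    intro t
    cases t with
    | zero => simp [tail_zero]
    | succ t => simp [tail_zero_succ]
  | succ r ih =>
    intro t
    have e1 : ∀ t : ℕ, ((univ.filter fun e : Fin (r + 1) → I =>
        t ≤ (univ.filter fun j => e j ∈ S).card).card : ℝ) =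
        ∑ i : I, ((univ.filter fun e : Fin r → I =>
          t ≤ (if i ∈ S then 1 else 0) + (univ.filter fun j => e j ∈ S).card).card : ℝ) := by
      intro t
      have e2 : ∀ i : I, ((univ.filter fun e : Fin r → I =>
          t ≤ (if i ∈ S then 1 else 0) + (univ.filter fun j => e j ∈ S).card).card : ℝ) =
          ∑ e : Fin r → I, (if t ≤ (if i ∈ S then 1 else 0) +
            (univ.filter fun j => e j ∈ S).card then (1 : ℝ) else 0) := by
        intro i
        rw [Finset.card_filter]
        push_cast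
        rfl
      rw [Finset.card_filter]
      push_cast
      rw [Finset.sum_congr rfl fun i _ => e2 i, ← Fintype.sum_prod_type',
        ← Equiv.sum_comp (Fin.consEquiv fun _ => I)]
      refine Finset.sum_congr rfl fun x _ => ?_
      have e3 : (univ.filter fun j : Fin (r + 1) =>
          (Fin.consEquiv fun _ => I) x j ∈ S).card =
          (if x.1 ∈ S then 1 else 0) + (univ.filter fun j => x.2 j ∈ S).card := by
        rw [Fin.card_filter_univ_succ']
        rfl
      rw [e3]
    cases t with
    | zero =>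
      rw [tail_zero, mul_one]
      simp
    | succ t =>
      rw [e1, ← Finset.sum_add_sum_compl S, tail_succ]
      have e4 : ∀ i ∈ S, ((univ.filter fun e : Fin r → I =>
          t + 1 ≤ (if i ∈ S then 1 else 0) + (univ.filter fun j => e j ∈ S).card).card : ℝ) =
          (Fintype.card I : ℝ) ^ r * tail r t q := by
        intro i hi
        rw [← ih t]
        congr 3
        ext e
        rw [if_pos hi]
        constructor <;> intro h <;> omega
      have e5 : ∀ i ∈ Sᶜ, ((univ.filter fun e : Fin r → I =>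
          t + 1 ≤ (if i ∈ S then 1 else 0) + (univ.filter fun j => e j ∈ S).card).card : ℝ) =
          (Fintype.card I : ℝ) ^ r * tail r (t + 1) q := by
        intro i hi
        rw [← ih (t + 1)]
        congr 3
        ext e
        rw [if_neg (Finset.mem_compl.1 hi), zero_add]
      rw [Finset.sum_congr rfl e4, Finset.sum_congr rfl e5, Finset.sum_const, Finset.sum_const,
        nsmul_eq_mul, nsmul_eq_mul, hqS, hqSc, pow_succ]
      ring

end count

section voters

variable {V I : Type*} [Fintype V] [Fintype I]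

/-- vertex covers -/
def Cov (A : V → V → Prop) (X : Finset V) : Prop := ∀ u v, A u v → u ∈ X ∨ v ∈ X

variable {A : V → V → Prop} {w : V → ℝ} {D : I → Finset V} {bad : V → V → Finset I}
variable {b k ρ : ℝ}

lemma sum_votes (w : V → ℝ) (D : I → Finset V) :
    ∑ v, w v * ((univ.filter fun i => v ∈ D i).card : ℝ) = ∑ i, ∑ v ∈ D i, w v := by
  have e1 : ∀ v, w v * ((univ.filter fun i => v ∈ D i).card : ℝ) =
      ∑ i, if v ∈ D i then w v else 0 := by
    intro v
    rw [Finset.card_filter]
    push_cast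
    rw [Finset.mul_sum]
    exact Finset.sum_congr rfl fun i _ => by split_ifs <;> simp
  rw [Finset.sum_congr rfl fun v _ => e1 v, Finset.sum_comm]
  refine Finset.sum_congr rfl fun i _ => ?_
  rw [Finset.sum_ite_mem, Finset.univ_inter]

/-- **Ratio larger than 2**: the average of the covers is a fractional cover. -/
theorem lp_cover (hw : ∀ v, 0 ≤ w v)
    (hgood : ∀ u v, A u v → ∀ i, i ∉ bad u v → u ∈ D i ∨ v ∈ D i)
    (hbad : ∀ u v, ((bad u v).card : ℝ) ≤ b) (hD : ∀ i, ∑ v ∈ D i, w v ≤ k) (hk : 0 < k)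
    (hb : 0 ≤ b) (hρ : 2 ≤ ρ) (hno : ∀ X, Cov A X → ρ * k ≤ ∑ v ∈ X, w v) :
    (Fintype.card I : ℝ) * (ρ - 2) ≤ b * ρ := by
  obtain ⟨m, hm⟩ : ∃ m : ℝ, m = Fintype.card I := ⟨_, rfl⟩
  have hm0 : 0 ≤ m := by rw [hm]; positivity
  rw [← hm]
  rcases le_or_gt m b with h | h
  · nlinarith
  obtain ⟨z, hz⟩ : ∃ z : V → ℝ, z = fun v => ((univ.filter fun i => v ∈ D i).card : ℝ) :=
    ⟨_, rfl⟩
  have hz0 : ∀ v, 0 ≤ z v := by intro v; rw [hz]; positivity
  have hcov : Cov A (univ.filter fun v => m - b ≤ 2 * z v) := by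
    intro u v huv
    by_contra hcon
    push Not at hcon
    simp only [mem_filter, mem_univ, true_and, not_le] at hcon
    have h1 : ((bad u v)ᶜ).card ≤ (univ.filter fun i => u ∈ D i).card +
        (univ.filter fun i => v ∈ D i).card := by
      refine le_trans (card_le_card ?_) (card_union_le _ _)
      intro i hi
      rw [mem_compl] at hi
      simp only [mem_union, mem_filter, mem_univ, true_and]
      exact hgood u v huv i hi
    have h2 : (((bad u v)ᶜ).card : ℝ) ≤ z u + z v := by
      rw [hz]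
      beta_reduce
      exact_mod_cast h1
    rw [card_compl, Nat.cast_sub (card_le_univ _), ← hm] at h2
    have := hbad u v
    linarith [hcon.1, hcon.2]
  have h1 := hno _ hcov
  have h2 : (∑ v ∈ univ.filter (fun v => m - b ≤ 2 * z v), w v) * (m - b) ≤ 2 * (m * k) := by
    calc (∑ v ∈ univ.filter (fun v => m - b ≤ 2 * z v), w v) * (m - b)
        = ∑ v ∈ univ.filter (fun v => m - b ≤ 2 * z v), w v * (m - b) := Finset.sum_mul _ _ _
      _ ≤ ∑ v ∈ univ.filter (fun v => m - b ≤ 2 * z v), w v * (2 * z v) := by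
          refine Finset.sum_le_sum fun v hv => ?_
          rw [mem_filter] at hv
          exact mul_le_mul_of_nonneg_left hv.2 (hw v)
      _ ≤ ∑ v, w v * (2 * z v) := by
          refine Finset.sum_le_univ_sum_of_nonneg fun v => ?_
          have := hw v
          have := hz0 v
          positivity
      _ = 2 * ∑ v, w v * z v := by
          rw [Finset.mul_sum]
          exact Finset.sum_congr rfl fun v _ => by ring
      _ = 2 * ∑ i, ∑ v ∈ D i, w v := by rw [hz, sum_votes]
      _ ≤ 2 * ∑ i : I, k := by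
          apply mul_le_mul_of_nonneg_left _ (by norm_num)
          exact Finset.sum_le_sum fun i _ => hD i
      _ = 2 * (m * k) := by rw [Finset.sum_const, nsmul_eq_mul, card_univ, hm]
  have h3 : ρ * k * (m - b) ≤ 2 * (m * k) :=
    (mul_le_mul_of_nonneg_right h1 (by linarith)).trans h2
  have h4 : k * (ρ * (m - b)) ≤ k * (2 * m) := by linarith
  have h5 := le_of_mul_le_mul_left h4 hk
  linarith

/-- **Ratio close to 2**: a vote of few covers. -/
theorem vote_cover (hw : ∀ v, 0 ≤ w v)
    (hgood : ∀ u v, A u v → ∀ i, i ∉ bad u v → u ∈ D i ∨ v ∈ D i)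
    (hbad : ∀ u v, ((bad u v).card : ℝ) ≤ b) (hD : ∀ i, ∑ v ∈ D i, w v ≤ k) (hk : 0 < k)
    (hb : 0 ≤ b) {c : ℕ} (hc : 1 ≤ c) (hρ : 2 - 1 / (40 * c) ≤ ρ)
    (hno : ∀ X, Cov A X → ρ * k ≤ ∑ v ∈ X, w v) (hI : 0 < Fintype.card I) :
    1 / (100 * c) < (Fintype.card V : ℝ) ^ 2 *
      (((36 * c ^ 2 + 2 * c + 1 : ℕ) : ℝ) * (b / Fintype.card I)) ^ (2 * c + 1) := by
  have hc1 : (1 : ℝ) ≤ c := by exact_mod_cast hc
  obtain ⟨m, hm⟩ : ∃ m : ℝ, m = Fintype.card I := ⟨_, rfl⟩
  have hm0 : 0 < m := by rw [hm]; exact_mod_cast hI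
  obtain ⟨r, hr⟩ : ∃ r : ℕ, r = 36 * c ^ 2 + 2 * c + 1 := ⟨_, rfl⟩
  rw [← hm, ← hr]
  by_contra hcon
  push Not at hcon
  obtain ⟨z, hz⟩ : ∃ z : V → ℝ, z = fun v => ((univ.filter fun i => v ∈ D i).card : ℝ) :=
    ⟨_, rfl⟩
  have hz0 : ∀ v, 0 ≤ z v := by intro v; rw [hz]; positivity
  have hz1 : ∀ v, z v ≤ m := by
    intro v
    rw [hz, hm]
    beta_reduce
    exact_mod_cast card_le_univ _
  obtain ⟨X, hX⟩ : ∃ X : (Fin r → I) → Finset V, X = fun e =>
    univ.filter fun v => 18 * c ^ 2 + 1 ≤ (univ.filter fun j => v ∈ D (e j)).card := ⟨_, rfl⟩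
  obtain ⟨B, hB⟩ : ∃ B : Finset (Fin r → I), B = univ.filter fun e =>
    ∃ p : V × V, 2 * c + 1 ≤ (univ.filter fun j => e j ∈ bad p.1 p.2).card := ⟨_, rfl⟩
  -- the covers
  have hcov : ∀ e, e ∉ B → Cov A (X e) := by
    intro e he u v huv
    by_contra hcon
    push Not at hcon
    rw [hX] at hcon
    simp only [mem_filter, mem_univ, true_and, not_le] at hcon
    rw [hB] at he
    simp only [mem_filter, mem_univ, true_and, not_exists, not_le] at he
    have h1 := he (u, v)
    have h2 : (univ : Finset (Fin r)).card ≤ (univ.filter fun j => e j ∈ bad u v).card +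
        ((univ.filter fun j => u ∈ D (e j)).card + (univ.filter fun j => v ∈ D (e j)).card) := by
      refine le_trans (card_le_card (t := (univ.filter fun j => e j ∈ bad u v) ∪
        ((univ.filter fun j => u ∈ D (e j)) ∪ (univ.filter fun j => v ∈ D (e j)))) ?_) ?_
      · intro j _
        simp only [mem_union, mem_filter, mem_univ, true_and]
        by_cases h : e j ∈ bad u v
        · exact Or.inl h
        · exact Or.inr (hgood u v huv _ h)
      · refine (card_union_le _ _).trans ?_
        exact Nat.add_le_add_left (card_union_le _ _) _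
    rw [card_univ, Fintype.card_fin] at h2
    simp only at h1
    omega
  -- the total weight
  have hsum : ∑ e, ∑ v ∈ X e, w v ≤ m ^ r * ((2 - 1 / (20 * c)) * k) := by
    have e1 : ∑ e, ∑ v ∈ X e, w v = ∑ v, w v * ((univ.filter fun e => v ∈ X e).card : ℝ) :=
      (sum_votes w X).symm
    rw [e1]
    have e2 : ∀ v, ((univ.filter fun e => v ∈ X e).card : ℝ) ≤
        m ^ r * ((2 - 1 / (20 * c)) * (z v / m)) := by
      intro v
      have h1 := count_tail (univ.filter fun i => v ∈ D i) r (18 * c ^ 2 + 1)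
      have e3 : (univ.filter fun e => v ∈ X e) = univ.filter fun e : Fin r → I =>
          18 * c ^ 2 + 1 ≤ (univ.filter fun j => e j ∈ univ.filter fun i => v ∈ D i).card := by
        ext e
        rw [hX]
        simp
      rw [e3, h1, ← hm]
      apply mul_le_mul_of_nonneg_left _ (by positivity)
      have h2 := tail_ratio c hc (q := z v / m) (div_nonneg (hz0 v) hm0.le)
        (by rw [div_le_one hm0]; exact hz1 v)
      rw [← hr] at h2
      rw [hz] at h2 ⊢
      exact h2
    calc ∑ v, w v * ((univ.filter fun e => v ∈ X e).card : ℝ)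
        ≤ ∑ v, w v * (m ^ r * ((2 - 1 / (20 * c)) * (z v / m))) :=
          Finset.sum_le_sum fun v _ => mul_le_mul_of_nonneg_left (e2 v) (hw v)
      _ = m ^ r * ((2 - 1 / (20 * c)) * ((∑ v, w v * z v) / m)) := by
          rw [Finset.sum_div, Finset.mul_sum, Finset.mul_sum]
          exact Finset.sum_congr rfl fun v _ => by ring
      _ ≤ m ^ r * ((2 - 1 / (20 * c)) * k) := by
          have h3 : (0 : ℝ) ≤ 2 - 1 / (20 * c) := by
            have : 1 / (20 * (c : ℝ)) ≤ 1 := by
              rw [div_le_one (by positivity)]; linarith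
            linarith
          apply mul_le_mul_of_nonneg_left _ (by positivity)
          apply mul_le_mul_of_nonneg_left _ h3
          rw [div_le_iff₀ hm0, hz, sum_votes]
          calc ∑ i, ∑ v ∈ D i, w v ≤ ∑ i : I, k := Finset.sum_le_sum fun i _ => hD i
            _ = k * m := by rw [Finset.sum_const, nsmul_eq_mul, card_univ, hm]; ring
  -- the exceptional votes
  have hBcard : (B.card : ℝ) ≤ m ^ r * (1 / (100 * c)) := by
    have h1 : B.card ≤ ∑ p : V × V, (univ.filter fun e : Fin r → I =>
        2 * c + 1 ≤ (univ.filter fun j => e j ∈ bad p.1 p.2).card).card := by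
      refine le_trans (card_le_card (t := univ.biUnion fun p : V × V =>
        univ.filter fun e : Fin r → I =>
          2 * c + 1 ≤ (univ.filter fun j => e j ∈ bad p.1 p.2).card) ?_) card_biUnion_le
      intro e he
      rw [hB, mem_filter] at he
      obtain ⟨p, hp⟩ := he.2
      rw [mem_biUnion]
      exact ⟨p, mem_univ _, by rw [mem_filter]; exact ⟨mem_univ _, hp⟩⟩
    have h2 : (B.card : ℝ) ≤ ∑ p : V × V, m ^ r * ((r : ℝ) * (b / m)) ^ (2 * c + 1) := by
      have h3 : (B.card : ℝ) ≤ ∑ p : V × V, ((univ.filter fun e : Fin r → I =>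
          2 * c + 1 ≤ (univ.filter fun j => e j ∈ bad p.1 p.2).card).card : ℝ) := by
        exact_mod_cast h1
      refine h3.trans (Finset.sum_le_sum fun p _ => ?_)
      rw [count_tail, ← hm]
      apply mul_le_mul_of_nonneg_left _ (by positivity)
      have h4 : ((bad p.1 p.2).card : ℝ) / m ≤ 1 := by
        rw [div_le_one hm0, hm]
        exact_mod_cast card_le_univ _
      refine (tail_le_pow (by positivity) h4 _ _).trans ?_
      apply pow_le_pow_left₀ (by positivity)
      apply mul_le_mul_of_nonneg_left _ (by positivity)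
      exact div_le_div_of_nonneg_right (hbad _ _) hm0.le
    refine h2.trans ?_
    rw [Finset.sum_const, card_univ, Fintype.card_prod, nsmul_eq_mul]
    push_cast
    calc (Fintype.card V : ℝ) * Fintype.card V * (m ^ r * ((r : ℝ) * (b / m)) ^ (2 * c + 1))
        = m ^ r * ((Fintype.card V : ℝ) ^ 2 * ((r : ℝ) * (b / m)) ^ (2 * c + 1)) := by ring
      _ ≤ m ^ r * (1 / (100 * c)) := mul_le_mul_of_nonneg_left hcon (by positivity)
  -- contradiction
  have hlow : (m ^ r - B.card) * (ρ * k) ≤ ∑ e, ∑ v ∈ X e, w v := by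
    have h1 : ((Bᶜ).card : ℝ) = m ^ r - B.card := by
      rw [card_compl, Nat.cast_sub (card_le_univ _)]
      congr 1
      rw [Fintype.card_fun, Fintype.card_fin, hm]
      push_cast
      rfl
    rw [← h1, ← nsmul_eq_mul, ← Finset.sum_const]
    refine (Finset.sum_le_sum fun e he => hno _ (hcov e (mem_compl.1 he))).trans ?_
    refine Finset.sum_le_univ_sum_of_nonneg fun e => ?_
    exact Finset.sum_nonneg fun v _ => hw v
  have hmr : 0 < m ^ r := by positivity
  obtain ⟨u, hu⟩ : ∃ u : ℝ, u = 1 / c := ⟨_, rfl⟩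
  have hu0 : 0 < u := by rw [hu]; positivity
  have hu1 : u ≤ 1 := by rw [hu, div_le_one (by linarith)]; exact hc1
  have e100 : 1 / (100 * (c : ℝ)) = u / 100 := by rw [hu]; field_simp
  have e40 : 1 / (40 * (c : ℝ)) = u / 40 := by rw [hu]; field_simp
  have e20 : 1 / (20 * (c : ℝ)) = u / 20 := by rw [hu]; field_simp
  rw [e100] at hBcard
  rw [e40] at hρ
  rw [e20] at hsum
  have hρ0 : 0 < ρ := by linarith
  have h1 : m ^ r * (1 - u / 100) * (ρ * k) ≤ m ^ r * ((2 - u / 20) * k) := by
    refine le_trans (mul_le_mul_of_nonneg_right ?_ (by positivity)) (hlow.trans hsum)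
    linarith
  have h2 : (m ^ r * k) * ((1 - u / 100) * ρ) ≤ (m ^ r * k) * (2 - u / 20) := by linarith
  have h3 := le_of_mul_le_mul_left h2 (by positivity)
  have h4 : (1 - u / 100) * (2 - u / 40) ≤ (1 - u / 100) * ρ :=
    mul_le_mul_of_nonneg_left hρ (by linarith)
  nlinarith

/-- **Small degree**: one cover, with the lighter ends of the bad edges. -/
theorem deg_cover (hw : ∀ v, 0 ≤ w v) (hsA : ∀ u v, A u v → A v u)
    (hsb : ∀ u v, bad u v = bad v u)
    (hgood : ∀ u v, A u v → ∀ i, i ∉ bad u v → u ∈ D i ∨ v ∈ D i)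
    (hbad : ∀ u v, ((bad u v).card : ℝ) ≤ b) (hD : ∀ i, ∑ v ∈ D i, w v ≤ k) (hk : 0 < k)
    (hb : 0 ≤ b) {γ Δ : ℝ} (hγ : 0 < γ)
    (hdeg : ∀ u, ((univ.filter fun v => A u v).card : ℝ) ≤ Δ)
    (hno : ∀ X, Cov A X → (1 + γ) * k ≤ ∑ v ∈ X, w v) :
    (Fintype.card I : ℝ) * γ ≤ b * (2 * Δ * (1 + γ)) := by
  obtain ⟨m, hm⟩ : ∃ m : ℝ, m = Fintype.card I := ⟨_, rfl⟩
  have hm0 : 0 ≤ m := by rw [hm]; positivity
  rw [← hm]
  -- an optimal cover
  obtain ⟨D0, hD0, hmin⟩ : ∃ D0 : Finset V, Cov A D0 ∧
      ∀ X, Cov A X → ∑ v ∈ D0, w v ≤ ∑ v ∈ X, w v := by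
    obtain ⟨D0, h1, h2⟩ := Finset.exists_min_image (univ.filter fun X : Finset V => Cov A X)
      (fun X => ∑ v ∈ X, w v) ⟨univ, by
        rw [mem_filter]; exact ⟨mem_univ _, fun u v _ => Or.inl (mem_univ _)⟩⟩
    refine ⟨D0, (mem_filter.1 h1).2, fun X hX => h2 X ?_⟩
    rw [mem_filter]; exact ⟨mem_univ _, hX⟩
  obtain ⟨opt, hopt⟩ : ∃ opt : ℝ, opt = ∑ v ∈ D0, w v := ⟨_, rfl⟩
  rw [← hopt] at hmin
  have hopt1 : (1 + γ) * k ≤ opt := by rw [hopt]; exact hno _ hD0
  have hopt0 : 0 < opt := lt_of_lt_of_le (by positivity) hopt1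
  obtain ⟨F, hF⟩ : ∃ F : I → Finset V, F = fun i =>
    univ.filter fun v => ∃ u, A v u ∧ i ∈ bad v u ∧ w v ≤ w u := ⟨_, rfl⟩
  have hcov : ∀ i, Cov A (D i ∪ F i) := by
    intro i u v huv
    rw [mem_union, mem_union]
    by_cases h : i ∈ bad u v
    · rcases le_total (w u) (w v) with h1 | h1
      · left; right
        rw [hF]
        simp only [mem_filter, mem_univ, true_and]
        exact ⟨v, huv, h, h1⟩
      · right; right
        rw [hF]
        simp only [mem_filter, mem_univ, true_and]
        exact ⟨u, hsA _ _ huv, by rw [hsb]; exact h, h1⟩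
    · rcases hgood u v huv i h with h1 | h1
      · exact Or.inl (Or.inl h1)
      · exact Or.inr (Or.inl h1)
  have hstep : ∀ i, opt ≤ k + ∑ v ∈ F i, w v := by
    intro i
    refine (hmin _ (hcov i)).trans ?_
    have h1 : ∑ v ∈ D i ∪ F i, w v ≤ ∑ v ∈ D i, w v + ∑ v ∈ F i, w v := by
      rw [← Finset.sum_union_inter]
      have : 0 ≤ ∑ v ∈ D i ∩ F i, w v := Finset.sum_nonneg fun v _ => hw v
      linarith
    linarith [hD i]
  have hF1 : ∀ i, ∑ v ∈ F i, w v ≤
      ∑ v, ∑ u, if A v u ∧ i ∈ bad v u ∧ w v ≤ w u then w v else 0 := by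
    intro i
    rw [hF]
    beta_reduce
    rw [Finset.sum_filter]
    refine Finset.sum_le_sum fun v _ => ?_
    split_ifs with h
    · obtain ⟨u, hu⟩ := h
      calc w v = (if A v u ∧ i ∈ bad v u ∧ w v ≤ w u then w v else 0) := by rw [if_pos hu]
        _ ≤ _ := Finset.single_le_sum (f := fun u =>
            if A v u ∧ i ∈ bad v u ∧ w v ≤ w u then w v else 0)
            (fun u _ => by split_ifs; exacts [hw v, le_rfl]) (mem_univ u)
    · exact Finset.sum_nonneg fun u _ => by split_ifs; exacts [hw v, le_rfl]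
  have hS : ∑ v, ∑ u, (if A v u ∧ w v ≤ w u then w v else 0) ≤ 2 * Δ * opt := by
    have h1 : ∀ v u, (if A v u ∧ w v ≤ w u then w v else 0) ≤
        (if A v u then (if v ∈ D0 then w v else 0) else 0) +
        (if A v u then (if u ∈ D0 then w u else 0) else 0) := by
      intro v u
      by_cases h : A v u
      · rw [if_pos h, if_pos h]
        by_cases h2 : w v ≤ w u
        · rw [if_pos ⟨h, h2⟩]
          rcases hD0 v u h with h3 | h3
          · rw [if_pos h3]
            have : 0 ≤ if u ∈ D0 then w u else 0 := by split_ifs; exacts [hw u, le_rfl]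
            linarith
          · rw [if_pos h3]
            have : 0 ≤ if v ∈ D0 then w v else 0 := by split_ifs; exacts [hw v, le_rfl]
            linarith
        · rw [if_neg fun g => h2 g.2]
          have h4 : 0 ≤ if v ∈ D0 then w v else 0 := by split_ifs; exacts [hw v, le_rfl]
          have h5 : 0 ≤ if u ∈ D0 then w u else 0 := by split_ifs; exacts [hw u, le_rfl]
          linarith
      · rw [if_neg h, if_neg h, if_neg fun g => h g.1]
        norm_num
    have h2 : ∑ v, ∑ u, (if A v u then (if v ∈ D0 then w v else 0) else 0) ≤ Δ * opt := by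
      have h3 : ∀ v, ∑ u, (if A v u then (if v ∈ D0 then w v else 0) else 0) ≤
          Δ * (if v ∈ D0 then w v else 0) := by
        intro v
        rw [← Finset.sum_filter, Finset.sum_const, nsmul_eq_mul]
        apply mul_le_mul_of_nonneg_right (hdeg v)
        split_ifs; exacts [hw v, le_rfl]
      refine (Finset.sum_le_sum fun v _ => h3 v).trans (le_of_eq ?_)
      rw [← Finset.mul_sum, hopt, Finset.sum_ite_mem, Finset.univ_inter]
    have h3 : ∑ v, ∑ u, (if A v u then (if u ∈ D0 then w u else 0) else 0) ≤ Δ * opt := by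
      rw [Finset.sum_comm]
      refine le_trans (Finset.sum_le_sum fun u _ => Finset.sum_le_sum fun v _ => ?_) h2
      by_cases h : A v u
      · rw [if_pos h, if_pos (hsA _ _ h)]
      · rw [if_neg h, if_neg fun g => h (hsA _ _ g)]
    calc ∑ v, ∑ u, (if A v u ∧ w v ≤ w u then w v else 0)
        ≤ ∑ v, ∑ u, ((if A v u then (if v ∈ D0 then w v else 0) else 0) +
            (if A v u then (if u ∈ D0 then w u else 0) else 0)) :=
          Finset.sum_le_sum fun v _ => Finset.sum_le_sum fun u _ => h1 v u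
      _ ≤ 2 * Δ * opt := by
          simp_rw [Finset.sum_add_distrib]
          linarith
  have htot : m * opt ≤ m * k + b * (2 * Δ * opt) := by
    calc m * opt = ∑ i : I, opt := by rw [Finset.sum_const, nsmul_eq_mul, card_univ, hm]
      _ ≤ ∑ i : I, (k + ∑ v, ∑ u, if A v u ∧ i ∈ bad v u ∧ w v ≤ w u then w v else 0) :=
          Finset.sum_le_sum fun i _ => (hstep i).trans (by linarith [hF1 i])
      _ = m * k + ∑ v, ∑ u, ∑ i : I, (if A v u ∧ i ∈ bad v u ∧ w v ≤ w u then w v else 0) := by
          rw [Finset.sum_add_distrib, Finset.sum_const, nsmul_eq_mul, card_univ, hm,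
            Finset.sum_comm]
          congr 1
          exact Finset.sum_congr rfl fun v _ => Finset.sum_comm
      _ ≤ m * k + ∑ v, ∑ u, b * (if A v u ∧ w v ≤ w u then w v else 0) := by
          apply add_le_add le_rfl
          refine Finset.sum_le_sum fun v _ => Finset.sum_le_sum fun u _ => ?_
          by_cases h : A v u ∧ w v ≤ w u
          · rw [if_pos h]
            have h1 : ∑ i : I, (if A v u ∧ i ∈ bad v u ∧ w v ≤ w u then w v else 0) =
                ∑ i : I, if i ∈ bad v u then w v else 0 :=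
              Finset.sum_congr rfl fun i _ => by
                by_cases h2 : i ∈ bad v u
                · rw [if_pos h2, if_pos ⟨h.1, h2, h.2⟩]
                · rw [if_neg h2, if_neg fun g => h2 g.2.1]
            rw [h1, Finset.sum_ite_mem, Finset.univ_inter, Finset.sum_const, nsmul_eq_mul]
            exact mul_le_mul_of_nonneg_right (hbad _ _) (hw v)
          · rw [if_neg h, mul_zero]
            refine le_of_eq (Finset.sum_eq_zero fun i _ => ?_)
            rw [if_neg fun g => h ⟨g.1, g.2.2⟩]
      _ = m * k + b * ∑ v, ∑ u, (if A v u ∧ w v ≤ w u then w v else 0) := by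
          congr 1
          rw [Finset.mul_sum]
          exact Finset.sum_congr rfl fun v _ => (Finset.mul_sum _ _ _).symm
      _ ≤ m * k + b * (2 * Δ * opt) := by
          apply add_le_add le_rfl
          exact mul_le_mul_of_nonneg_left hS hb
  have h1 : m * γ * opt ≤ b * (2 * Δ * (1 + γ)) * opt := by
    have h2 := mul_le_mul_of_nonneg_left hopt1 hm0
    nlinarith
  exact le_of_mul_le_mul_right h1 hopt0

end voters

end Pool.Agent.U121.VC
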