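import Pool.Agent.U121.VC.Graph
import Pool.Agent.U121.VC.Vote

set_option autoImplicit false
set_option linter.unusedSectionVars false
set_option linter.unusedVariables false

/-!
U121/VC (helper121, MP_cff830_lc): circuits of small depth and the mean number of bits with a
property; a variant of `Pool.Agent.U47.AC.core` and `Pool.Agent.U47.AC.main`.
-/

namespace Pool.Agent.U121.VC

open Finset DomAC0 H568R2 Pool.Agent.TH163.AC3 Pool.Agent.U47.AC
open Pool.Agent.Y601.SSE hiding flip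

open scoped Classical

/-- the mean number of the bits `i` with `Q x i` -/
noncomputable def avgQ {N : ℕ} (Q : (Fin N → Bool) → Fin N → Prop) : ℝ :=
  (∑ x, ((univ.filter fun i => Q x i).card : ℝ)) / 2 ^ N

theorem core_gen {N s h : ℕ} (C : Circuit (Fin N)) (hs : 1 ≤ s)
    (hcond : h * (C.size * N) ≤ 2 ^ s) (Q : (Fin N → Bool) → Fin N → Prop) {B : ℝ}
    (hB : 1 / 2 ≤ B)
    (hQ : ∀ ρ : Restr (Fin N), Shallow C s h ρ →
      Ex half (fun x => ((univ.filter fun i => ρ i = none ∧ Q (ov ρ x) i).card : ℝ)) ≤ B * s) :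
    avgQ Q ≤ B * (24 * s) ^ (h + 1) := by
  have hs0 : (1 : ℝ) ≤ s := by exact_mod_cast hs
  obtain ⟨q, hq⟩ : ∃ q : ℝ, q = 1 / (24 * s) := ⟨_, rfl⟩
  have hq0 : 0 < q := by rw [hq]; positivity
  have hq1 : q ≤ 1 / 3 := by
    rw [hq, div_le_div_iff₀ (by positivity) (by norm_num)]
    linarith
  have hbad := collapse' C hq0.le hq1 hs h
  have h1 : (12 * s * q : ℝ) = 1 / 2 := by rw [hq]; field_simp; norm_num
  rw [h1] at hbad
  have hqh : 0 < q ^ h := by positivity
  have hw : ∀ a, 0 ≤ wq (q ^ h) a :=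
    wq_nonneg hqh.le (pow_le_one₀ hq0.le (by linarith))
  obtain ⟨T, hT⟩ : ∃ T : Restr (Fin N) → ℝ, T = fun ρ => Ex half (fun x =>
    ∑ i, (if ρ i = none then (1 : ℝ) else 0) * (if Q (ov ρ x) i then (1 : ℝ) else 0)) :=
    ⟨_, rfl⟩
  have hTcount : ∀ (ρ : Restr (Fin N)) (x : Fin N → Bool),
      ∑ i, (if ρ i = none then (1 : ℝ) else 0) * (if Q (ov ρ x) i then (1 : ℝ) else 0) =
        ((univ.filter fun i => ρ i = none ∧ Q (ov ρ x) i).card : ℝ) := by
    intro ρ x
    rw [card_filter]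
    push_cast
    refine sum_congr rfl fun i _ => ?_
    by_cases h2 : ρ i = none <;> by_cases h3 : Q (ov ρ x) i <;> simp [h2, h3]
  have hExT : Ex (wq (q ^ h)) T = q ^ h * avgQ Q := by
    rw [hT]
    have e1 : (fun ρ : Restr (Fin N) => Ex half (fun x => ∑ i, (if ρ i = none then (1 : ℝ) else 0) *
        (if Q (ov ρ x) i then (1 : ℝ) else 0))) =
        fun ρ => ∑ i, Ex half (fun x => (if ρ i = none then (1 : ℝ) else 0) *
          (if Q (ov ρ x) i then (1 : ℝ) else 0)) := by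
      funext ρ
      rw [Ex_sum univ half fun i x => (if ρ i = none then (1 : ℝ) else 0) *
          (if Q (ov ρ x) i then (1 : ℝ) else 0)]
    rw [e1, Ex_sum univ (wq (q ^ h)) fun i (ρ : Restr (Fin N)) =>
      Ex half (fun x => (if ρ i = none then (1 : ℝ) else 0) *
          (if Q (ov ρ x) i then (1 : ℝ) else 0))]
    have e2 : ∀ i : Fin N, Ex (wq (q ^ h)) (fun ρ : Restr (Fin N) =>
        Ex half (fun x => (if ρ i = none then (1 : ℝ) else 0) *
          (if Q (ov ρ x) i then (1 : ℝ) else 0))) =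
        q ^ h * Ex half (fun x => if Q x i then (1 : ℝ) else 0) :=
      fun i => avg i fun y => if Q y i then (1 : ℝ) else 0
    rw [sum_congr rfl fun i _ => e2 i, ← mul_sum]
    congr 1
    rw [← Ex_sum univ half fun i x => if Q x i then (1 : ℝ) else 0, Ex_half]
    unfold avgQ
    rw [Fintype.card_fin]
    congr 1
    refine sum_congr rfl fun x _ => ?_
    rw [card_filter]
    push_cast
    rfl
  have hN : (0 : ℝ) ≤ N := Nat.cast_nonneg _
  have hTle : ∀ ρ, T ρ ≤ B * s + N * (if ¬ Shallow C s h ρ then (1 : ℝ) else 0) := by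
    intro ρ
    rw [hT]
    show Ex half (fun x => ∑ i, (if ρ i = none then (1 : ℝ) else 0) *
        (if Q (ov ρ x) i then (1 : ℝ) else 0)) ≤ _
    rw [show (fun x => ∑ i, (if ρ i = none then (1 : ℝ) else 0) *
        (if Q (ov ρ x) i then (1 : ℝ) else 0)) =
        fun x => ((univ.filter fun i => ρ i = none ∧ Q (ov ρ x) i).card : ℝ) from
      funext fun x => hTcount ρ x]
    by_cases hS : Shallow C s h ρ
    · simp only [hS, not_true, if_false, mul_zero, add_zero]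
      exact hQ ρ hS
    · simp only [hS, not_false_iff, if_true, mul_one]
      have h2 : Ex half (fun x =>
          ((univ.filter fun i => ρ i = none ∧ Q (ov ρ x) i).card : ℝ)) ≤ N := by
        rw [← Ex_const (I := Fin N) half_sum (N : ℝ)]
        refine Ex_mono half_nonneg fun x => ?_
        have := card_le_univ (univ.filter fun i => ρ i = none ∧ Q (ov ρ x) i)
        rw [Fintype.card_fin] at this
        exact_mod_cast this
      have : 0 ≤ B * s := by positivity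
      linarith
  have hmain := Ex_mono hw hTle
  rw [hExT, Ex_add (wq (q ^ h)) (fun _ : Restr (Fin N) => B * (s : ℝ))
    (fun ρ => (N : ℝ) * (if ¬ Shallow C s h ρ then (1 : ℝ) else 0)),
    Ex_const (wq_sum _), Ex_smul] at hmain
  have hsmall : (N : ℝ) * Ex (wq (q ^ h)) (fun ρ : Restr (Fin N) =>
      if ¬ Shallow C s h ρ then (1 : ℝ) else 0) ≤ 1 / 2 := by
    refine (mul_le_mul_of_nonneg_left hbad hN).trans ?_
    have h3 : ((h * (C.size * N) : ℕ) : ℝ) ≤ ((2 ^ s : ℕ) : ℝ) := by exact_mod_cast hcond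
    push_cast at h3
    have h5 : ((1 : ℝ) / 2) ^ (s + 1) * 2 ^ s = 1 / 2 := by
      rw [pow_succ, mul_right_comm, ← mul_pow]
      norm_num
    calc (N : ℝ) * (h * C.size * (1 / 2) ^ (s + 1))
        = (1 / 2) ^ (s + 1) * (h * (C.size * N)) := by ring
      _ ≤ (1 / 2) ^ (s + 1) * 2 ^ s := mul_le_mul_of_nonneg_left h3 (by positivity)
      _ = 1 / 2 := h5
  have h4 : q ^ h * (24 * s) ^ h = 1 := by
    rw [← mul_pow, hq]
    have : (1 : ℝ) / (24 * s) * (24 * s) = 1 := by field_simp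
    rw [this, one_pow]
  have h5 : q ^ h * avgQ Q ≤ B * s + 1 / 2 := by linarith
  have h6 : (0 : ℝ) < (24 * s) ^ h := by positivity
  calc avgQ Q = (q ^ h * avgQ Q) * (24 * s) ^ h := by
        rw [mul_right_comm, h4, one_mul]
    _ ≤ (B * s + 1 / 2) * (24 * s) ^ h := mul_le_mul_of_nonneg_right h5 h6.le
    _ ≤ (B * (24 * s)) * (24 * s) ^ h := by
        apply mul_le_mul_of_nonneg_right _ h6.le
        nlinarith
    _ = B * (24 * s) ^ (h + 1) := by rw [pow_succ]; ring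

/-- the bound for the mean number of the bits -/
theorem main_gen (h : ℕ) : ∃ X0 : ℝ, 0 < X0 ∧ ∀ {N : ℕ} (C : Circuit (Fin N))
    (Q : (Fin N → Bool) → Fin N → Prop) {B : ℝ}, 1 / 2 ≤ B →
    (∀ s : ℕ, 1 ≤ s → ∀ ρ : Restr (Fin N), Shallow C s h ρ →
      Ex half (fun x => ((univ.filter fun i => ρ i = none ∧ Q (ov ρ x) i).card : ℝ)) ≤ B * s) →
    X0 ≤ avgQ Q / B →
    (2 : ℝ) ^ ((avgQ Q / B) ^ (1 / (h + 1 : ℝ)) / 100) ≤ C.size * N := by
  obtain ⟨Y0, hY48, hY0⟩ := exists_large h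
  refine ⟨Y0 ^ (h + 1), by positivity, ?_⟩
  intro N C Q B hB hQ hX
  have hB0 : 0 < B := by linarith
  obtain ⟨X, hXd⟩ : ∃ X : ℝ, X = avgQ Q / B := ⟨_, rfl⟩
  rw [← hXd] at hX ⊢
  obtain ⟨Y, hYd⟩ : ∃ Y : ℝ, Y = X ^ (1 / (h + 1 : ℝ)) := ⟨_, rfl⟩
  rw [← hYd]
  have hY00 : (0 : ℝ) ≤ Y0 := by linarith
  have hXpos : 0 ≤ X := le_trans (by positivity) hX
  have hYX : Y ^ (h + 1) = X := by
    rw [hYd, ← Real.rpow_natCast, ← Real.rpow_mul hXpos]
    push_cast
    rw [one_div, inv_mul_cancel₀ (by positivity), Real.rpow_one]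
  have hYn : 0 ≤ Y := by rw [hYd]; exact Real.rpow_nonneg hXpos _
  have hYY : Y0 ≤ Y := by
    by_contra hcon
    push Not at hcon
    have := pow_lt_pow_left₀ hcon hYn (Nat.succ_ne_zero h)
    rw [Nat.succ_eq_add_one, hYX] at this
    linarith
  have hY := hY0 Y hYY
  by_contra hlt0
  push Not at hlt0
  obtain ⟨s, hs⟩ : ∃ s : ℕ, s = ⌈Y / 24⌉₊ - 1 := ⟨_, rfl⟩
  have hc1 : Y / 24 ≤ ⌈Y / 24⌉₊ := Nat.le_ceil _
  have hc2 : (⌈Y / 24⌉₊ : ℝ) < Y / 24 + 1 := Nat.ceil_lt_add_one (by positivity)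
  have hc3 : 2 ≤ ⌈Y / 24⌉₊ := by
    have : (2 : ℝ) ≤ ⌈Y / 24⌉₊ := le_trans (by linarith) hc1
    exact_mod_cast this
  have hs1 : 1 ≤ s := by omega
  have hsr : (s : ℝ) = ⌈Y / 24⌉₊ - 1 := by
    rw [hs, Nat.cast_sub (by omega), Nat.cast_one]
  have hs2 : 24 * (s : ℝ) < Y := by rw [hsr]; linarith
  have hs3 : Y / 24 - 1 ≤ s := by rw [hsr]; linarith
  have hlt : (24 * (s : ℝ)) ^ (h + 1) < X := by
    rw [← hYX]
    exact pow_lt_pow_left₀ hs2 (by positivity) (Nat.succ_ne_zero h)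
  have hcond : h * (C.size * N) ≤ 2 ^ s := by
    have h1 : ((h * (C.size * N) : ℕ) : ℝ) ≤ ((2 ^ s : ℕ) : ℝ) := by
      push_cast
      calc (h : ℝ) * (C.size * N) ≤ h * 2 ^ (Y / 100) :=
            mul_le_mul_of_nonneg_left hlt0.le (Nat.cast_nonneg _)
        _ ≤ h * Y ^ h * 2 ^ (Y / 100) := by
            apply mul_le_mul_of_nonneg_right _ (by positivity)
            exact le_mul_of_one_le_right (Nat.cast_nonneg _) (one_le_pow₀ (by linarith))
        _ ≤ 2 ^ (Y / 24 - 1) := hY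
        _ ≤ (2 : ℝ) ^ (s : ℝ) := Real.rpow_le_rpow_of_exponent_le (by norm_num) hs3
        _ = 2 ^ s := Real.rpow_natCast _ _
    exact_mod_cast h1
  have hcore := core_gen C hs1 hcond Q hB (fun ρ hρ => hQ s hs1 ρ hρ)
  have h2 : X ≤ (24 * (s : ℝ)) ^ (h + 1) := by
    rw [hXd, div_le_iff₀ hB0]
    linarith
  linarith

end Pool.Agent.U121.VC
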