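import Pool.Agent.U121.VC.Code

set_option autoImplicit false
set_option linter.unusedSectionVars false
set_option linter.unusedVariables false

/-!
U121/VC (helper121, MP_cff830_lc): graphs whose adjacencies are shallow decision trees and whose
vertex cover number jumps: the number of vertices is large.
-/

namespace Pool.Agent.U121.VC

open Finset DomAC0 H568R2 Pool.Agent.TH163.AC3
open Pool.Agent.Y601.SSE hiding flip

open scoped Classical

section hit

variable {V : Type} [Fintype V]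

/-- pairwise disjoint pairs of different vertices -/
def Mat (M : Finset (V × V)) : Prop :=
  (∀ e ∈ M, e.1 ≠ e.2) ∧ ∀ e ∈ M, ∀ e' ∈ M, e ≠ e' → Disjoint ({e.1, e.2} : Finset V) {e'.1, e'.2}

/-- a random set contains one of the pairs of a matching -/
lemma hit {p : ℝ} (h0 : 0 ≤ p) (h1 : p ≤ 1) {M : Finset (V × V)} (hM : Mat M)
    (hp : M.card * p ^ 2 = 1) :
    (1 : ℝ) / 2 ≤ ∑ T : Finset V, RS.wt p T * (if ∃ e ∈ M, e.1 ∈ T ∧ e.2 ∈ T then 1 else 0) := by
  have hm0 : (0 : ℝ) ≤ M.card := Nat.cast_nonneg _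
  -- the number of pairs
  obtain ⟨X, hX⟩ : ∃ X : Finset V → ℝ, X = fun T => ∑ e ∈ M,
    (if ({e.1, e.2} : Finset V) ⊆ T then (1 : ℝ) else 0) := ⟨_, rfl⟩
  have hXnat : ∀ T, ∃ k : ℕ, X T = k ∧ (0 < k → ∃ e ∈ M, e.1 ∈ T ∧ e.2 ∈ T) := by
    intro T
    refine ⟨(M.filter fun e => ({e.1, e.2} : Finset V) ⊆ T).card, ?_, ?_⟩
    · rw [hX, Finset.card_filter]
      push_cast
      rfl
    · intro hk
      obtain ⟨e, he⟩ := Finset.card_pos.1 hk
      rw [mem_filter, Finset.insert_subset_iff, Finset.singleton_subset_iff] at he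
      exact ⟨e, he.1, he.2.1, he.2.2⟩
  have hpt : ∀ T, (3 * X T - X T ^ 2) / 2 ≤ (if ∃ e ∈ M, e.1 ∈ T ∧ e.2 ∈ T then (1 : ℝ) else 0) := by
    intro T
    obtain ⟨k, hk, hk'⟩ := hXnat T
    rw [hk]
    rcases Nat.lt_or_ge k 1 with h | h
    · have : k = 0 := by omega
      subst this
      norm_num
      split_ifs <;> norm_num
    · rw [if_pos (hk' (by omega))]
      have h2 : (3 * k : ℝ) ≤ k ^ 2 + 2 := by
        rcases Nat.lt_or_ge k 2 with h3 | h3
        · have : k = 1 := by omega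
          subst this
          norm_num
        · have : (2 : ℝ) ≤ k := by exact_mod_cast h3
          nlinarith
      linarith
  have hEX : ∑ T : Finset V, RS.wt p T * X T = M.card * p ^ 2 := by
    rw [hX]
    simp_rw [Finset.mul_sum]
    rw [Finset.sum_comm]
    rw [Finset.sum_congr rfl (g := fun _ => p ^ 2)]
    · rw [Finset.sum_const, nsmul_eq_mul]
    · intro e he
      have h2 := RS.sum_wt (V := V) p ({e.1, e.2} : Finset V)
      rw [Finset.card_pair (hM.1 e he)] at h2
      rw [← h2]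
      refine Finset.sum_congr rfl fun T _ => ?_
      split_ifs <;> simp
  have hEX2 : ∑ T : Finset V, RS.wt p T * X T ^ 2 ≤ M.card * p ^ 2 + (M.card * p ^ 2) ^ 2 := by
    have e1 : ∀ T : Finset V, RS.wt p T * X T ^ 2 = ∑ e ∈ M, ∑ e' ∈ M, RS.wt p T *
        ((if ({e.1, e.2} : Finset V) ⊆ T then (1 : ℝ) else 0) *
        (if ({e'.1, e'.2} : Finset V) ⊆ T then (1 : ℝ) else 0)) := by
      intro T
      rw [hX, sq, Finset.sum_mul_sum, Finset.mul_sum]
      exact Finset.sum_congr rfl fun e _ => Finset.mul_sum _ _ _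
    rw [Finset.sum_congr rfl fun T _ => e1 T, Finset.sum_comm]
    have h2 : ∀ e ∈ M, ∑ T : Finset V, ∑ e' ∈ M, RS.wt p T *
        ((if ({e.1, e.2} : Finset V) ⊆ T then (1 : ℝ) else 0) *
        (if ({e'.1, e'.2} : Finset V) ⊆ T then (1 : ℝ) else 0)) ≤ p ^ 2 + M.card * p ^ 4 := by
      intro e he
      rw [Finset.sum_comm, ← Finset.add_sum_erase M _ he]
      refine add_le_add ?_ ?_
      · have h3 := RS.sum_wt (V := V) p ({e.1, e.2} : Finset V)
        rw [Finset.card_pair (hM.1 e he)] at h3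
        rw [← h3]
        refine Finset.sum_le_sum fun T _ => ?_
        split_ifs <;> simp
      · calc ∑ e' ∈ M.erase e, ∑ T : Finset V, RS.wt p T *
              ((if ({e.1, e.2} : Finset V) ⊆ T then (1 : ℝ) else 0) *
              (if ({e'.1, e'.2} : Finset V) ⊆ T then (1 : ℝ) else 0))
            = ∑ e' ∈ M.erase e, p ^ 4 := by
              refine Finset.sum_congr rfl fun e' he' => ?_
              rw [Finset.mem_erase] at he'
              have hdis := hM.2 e he e' he'.2 he'.1.symm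
              have h3 := RS.sum_wt (V := V) p (({e.1, e.2} : Finset V) ∪ {e'.1, e'.2})
              rw [Finset.card_union_of_disjoint hdis, Finset.card_pair (hM.1 e he),
                Finset.card_pair (hM.1 e' he'.2)] at h3
              rw [← h3]
              refine Finset.sum_congr rfl fun T _ => ?_
              by_cases hT1 : ({e.1, e.2} : Finset V) ⊆ T
              · by_cases hT2 : ({e'.1, e'.2} : Finset V) ⊆ T
                · rw [if_pos hT1, if_pos hT2, if_pos (Finset.union_subset hT1 hT2)]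
                  ring
                · rw [if_neg hT2, if_neg (fun g => hT2 (Finset.union_subset_right g))]
                  ring
              · rw [if_neg hT1, if_neg (fun g => hT1 (Finset.union_subset_left g))]
                ring
          _ = (M.erase e).card * p ^ 4 := by rw [Finset.sum_const, nsmul_eq_mul]
          _ ≤ M.card * p ^ 4 := by
              refine mul_le_mul_of_nonneg_right ?_ (by positivity)
              exact_mod_cast Finset.card_le_card (Finset.erase_subset _ _)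
    refine (Finset.sum_le_sum h2).trans (le_of_eq ?_)
    rw [Finset.sum_const, nsmul_eq_mul]
    ring
  have h3 : ∑ T : Finset V, RS.wt p T * ((3 * X T - X T ^ 2) / 2) =
      (3 * ∑ T : Finset V, RS.wt p T * X T - ∑ T : Finset V, RS.wt p T * X T ^ 2) / 2 := by
    rw [Finset.mul_sum, ← Finset.sum_sub_distrib, Finset.sum_div]
    exact Finset.sum_congr rfl fun T _ => by ring
  calc (1 : ℝ) / 2 ≤ ∑ T : Finset V, RS.wt p T * ((3 * X T - X T ^ 2) / 2) := by
        rw [h3, hEX]
        rw [hp] at hEX2 ⊢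
        linarith
    _ ≤ _ := Finset.sum_le_sum fun T _ => mul_le_mul_of_nonneg_left (hpt T) (RS.wt_nonneg h0 h1 T)

end hit

section graph

variable {V : Type} [Fintype V] {N : ℕ} {s : ℕ}
variable (A : (Fin N → Bool) → V → V → Prop) (cov : (Fin N → Bool) → Finset V)

/-- the variables whose change makes an edge of `T` appear, outside of the cover -/
noncomputable def seen (T : Finset V) (x : Fin N → Bool) : Finset (Fin N) :=
  univ.filter fun i => ∃ u v, u ∈ T \ cov x ∧ v ∈ T \ cov x ∧ A (fl i x) u v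

lemma fixed_set (hs : 1 ≤ s) (t : V → V → DTree N) (hA : ∀ x u v, (t u v).eval x = true ↔ A x u v)
    (hd : ∀ u v, (t u v).depth ≤ s) (Y : Finset (Fin N → Bool))
    (hcov : ∀ x ∈ Y, ∀ u v, A x u v → u ∈ cov x ∨ v ∈ cov x) (T : Finset V) :
    ∑ x ∈ Y, (2 : ℝ) ^ (((seen A cov T x).card : ℝ) / (3 * s)) ≤ 2 ^ T.card * 2 ^ N := by
  have h1 : ∀ x ∈ Y, T \ cov x ∈ T.powerset := fun x _ => Finset.mem_powerset.2 sdiff_subset
  rw [← Finset.sum_fiberwise_of_maps_to h1]
  have h2 : ∀ Z ∈ T.powerset, ∑ x ∈ Y with T \ cov x = Z,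
      (2 : ℝ) ^ (((seen A cov T x).card : ℝ) / (3 * s)) ≤ 2 ^ N := by
    intro Z _
    refine le_trans ?_ (coding (fun e : {q : V × V // q.1 ∈ Z ∧ q.2 ∈ Z} => t e.1.1 e.1.2) hs
      (fun e => hd _ _))
    refine le_trans (le_of_eq ?_) (Finset.sum_le_sum_of_subset_of_nonneg
      (s := Y.filter fun x => T \ cov x = Z) ?_ ?_)
    · refine Finset.sum_congr rfl fun x hx => ?_
      rw [mem_filter] at hx
      congr 3
      apply congrArg Finset.card
      unfold seen crit
      rw [hx.2]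
      ext i
      simp only [mem_filter, mem_univ, true_and]
      constructor
      · rintro ⟨u, v, hu, hv, h⟩
        exact ⟨⟨(u, v), hu, hv⟩, (hA _ _ _).2 h⟩
      · rintro ⟨⟨⟨u, v⟩, hu, hv⟩, h⟩
        exact ⟨u, v, hu, hv, (hA _ _ _).1 h⟩
    · intro x hx
      rw [mem_filter] at hx
      rw [mem_filter]
      refine ⟨mem_univ _, ?_⟩
      rintro ⟨⟨u, v⟩, hu, hv⟩
      rw [← hx.2, Finset.mem_sdiff] at hu hv
      cases h3 : (t u v).eval x
      · rfl
      · exfalso
        rcases hcov x hx.1 u v ((hA _ _ _).1 h3) with h4 | h4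
        · exact hu.2 h4
        · exact hv.2 h4
    · intro x _ _
      positivity
  refine (Finset.sum_le_sum h2).trans (le_of_eq ?_)
  rw [Finset.sum_const, Finset.card_powerset, nsmul_eq_mul]
  push_cast
  rfl

/-- **Graphs with shallow adjacencies whose cover number jumps.** -/
theorem jump_sum (hs : 1 ≤ s) (t : V → V → DTree N)
    (hA : ∀ x u v, (t u v).eval x = true ↔ A x u v)
    (hd : ∀ u v, (t u v).depth ≤ s) (Y : Finset (Fin N → Bool))
    (hcov : ∀ x ∈ Y, ∀ u v, A x u v → u ∈ cov x ∨ v ∈ cov x)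
    (J : (Fin N → Bool) → Finset (Fin N)) {m : ℕ} {p : ℝ} (h0 : 0 ≤ p) (h1 : p ≤ 1)
    (hp : m * p ^ 2 = 1)
    (hJ : ∀ x ∈ Y, ∀ i ∈ J x, ∃ M : Finset (V × V), M.card = m ∧ Mat M ∧
      ∀ e ∈ M, e.1 ∉ cov x ∧ e.2 ∉ cov x ∧ A (fl i x) e.1 e.2) :
    ∑ x ∈ Y, (2 : ℝ) ^ (((J x).card : ℝ) / (6 * s) - p * Fintype.card V) ≤ 2 ^ N := by
  have hs0 : (0 : ℝ) < s := by exact_mod_cast hs
  have hmean : ∀ x ∈ Y, ((J x).card : ℝ) / 2 ≤
      ∑ T : Finset V, RS.wt p T * ((seen A cov T x).card : ℝ) := by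
    intro x hx
    have e1 : ∀ T : Finset V, RS.wt p T * ((seen A cov T x).card : ℝ) =
        ∑ i : Fin N, RS.wt p T * (if i ∈ seen A cov T x then 1 else 0) := by
      intro T
      rw [← Finset.mul_sum]
      congr 1
      rw [Finset.sum_ite_mem, Finset.univ_inter, Finset.sum_const, nsmul_eq_mul, mul_one]
    rw [Finset.sum_congr rfl fun T _ => e1 T, Finset.sum_comm]
    have e2 : ∀ i ∈ J x, (1 : ℝ) / 2 ≤
        ∑ T : Finset V, RS.wt p T * (if i ∈ seen A cov T x then 1 else 0) := by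
      intro i hi
      obtain ⟨M, hMc, hM, hMe⟩ := hJ x hx i hi
      refine (hit h0 h1 hM (by rw [hMc]; exact hp)).trans (Finset.sum_le_sum fun T _ => ?_)
      refine mul_le_mul_of_nonneg_left ?_ (RS.wt_nonneg h0 h1 T)
      by_cases h : ∃ e ∈ M, e.1 ∈ T ∧ e.2 ∈ T
      · rw [if_pos h]
        obtain ⟨e, he, he1, he2⟩ := h
        have h3 := hMe e he
        rw [if_pos]
        unfold seen
        rw [mem_filter]
        exact ⟨mem_univ _, e.1, e.2, Finset.mem_sdiff.2 ⟨he1, h3.1⟩,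
          Finset.mem_sdiff.2 ⟨he2, h3.2.1⟩, h3.2.2⟩
      · rw [if_neg h]
        split_ifs <;> norm_num
    calc ((J x).card : ℝ) / 2 = ∑ i ∈ J x, (1 : ℝ) / 2 := by
          rw [Finset.sum_const, nsmul_eq_mul]; ring
      _ ≤ ∑ i ∈ J x, ∑ T : Finset V, RS.wt p T * (if i ∈ seen A cov T x then 1 else 0) :=
          Finset.sum_le_sum e2
      _ ≤ _ := by
          refine Finset.sum_le_univ_sum_of_nonneg fun i => ?_
          refine Finset.sum_nonneg fun T _ => ?_
          have hw := RS.wt_nonneg h0 h1 T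
          split_ifs
          · rw [mul_one]; exact hw
          · rw [mul_zero]
  have hcard : ∑ T : Finset V, RS.wt p T * (T.card : ℝ) = p * Fintype.card V := by
    have h := RS.E_count (V := V) p univ
    rw [Finset.card_univ] at h
    simpa using h
  calc ∑ x ∈ Y, (2 : ℝ) ^ (((J x).card : ℝ) / (6 * s) - p * Fintype.card V)
      ≤ ∑ x ∈ Y, ∑ T : Finset V, RS.wt p T *
          (2 : ℝ) ^ (((seen A cov T x).card : ℝ) / (3 * s) - T.card) := by
        refine Finset.sum_le_sum fun x hx => ?_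
        refine le_trans ?_ (jensen univ _ _ (fun T _ => RS.wt_nonneg h0 h1 T) (RS.sum_wt_all _))
        apply Real.rpow_le_rpow_of_exponent_le (by norm_num)
        have e3 : ∑ T : Finset V, RS.wt p T * (((seen A cov T x).card : ℝ) / (3 * s) - T.card) =
            (∑ T : Finset V, RS.wt p T * ((seen A cov T x).card : ℝ)) / (3 * s) -
              ∑ T : Finset V, RS.wt p T * (T.card : ℝ) := by
          rw [Finset.sum_div, ← Finset.sum_sub_distrib]
          exact Finset.sum_congr rfl fun T _ => by ring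
        rw [e3, hcard]
        have h4 := div_le_div_of_nonneg_right (hmean x hx) (show (0 : ℝ) ≤ 3 * s by positivity)
        have h5 : ((J x).card : ℝ) / (6 * s) = ((J x).card : ℝ) / 2 / (3 * s) := by
          field_simp; ring
        rw [h5]
        linarith
    _ = ∑ T : Finset V, RS.wt p T * ((2 : ℝ) ^ (-(T.card : ℝ)) *
          ∑ x ∈ Y, (2 : ℝ) ^ (((seen A cov T x).card : ℝ) / (3 * s))) := by
        rw [Finset.sum_comm]
        refine Finset.sum_congr rfl fun T _ => ?_
        rw [Finset.mul_sum, Finset.mul_sum]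
        refine Finset.sum_congr rfl fun x _ => ?_
        rw [← Real.rpow_add (by norm_num)]
        congr 2
        ring
    _ ≤ ∑ T : Finset V, RS.wt p T * 2 ^ N := by
        refine Finset.sum_le_sum fun T _ => ?_
        refine mul_le_mul_of_nonneg_left ?_ (RS.wt_nonneg h0 h1 T)
        calc (2 : ℝ) ^ (-(T.card : ℝ)) *
              ∑ x ∈ Y, (2 : ℝ) ^ (((seen A cov T x).card : ℝ) / (3 * s))
            ≤ (2 : ℝ) ^ (-(T.card : ℝ)) * (2 ^ T.card * 2 ^ N) :=
              mul_le_mul_of_nonneg_left (fixed_set A cov hs t hA hd Y hcov T) (by positivity)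
          _ = 2 ^ N := by
              rw [← mul_assoc, Real.rpow_neg (by norm_num), Real.rpow_natCast,
                inv_mul_cancel₀ (by positivity), one_mul]
    _ = 2 ^ N := by rw [← Finset.sum_mul, RS.sum_wt_all, one_mul]

/-- the mean of the number of the variables in `J x` -/
theorem jump_mean (hs : 1 ≤ s) (t : V → V → DTree N)
    (hA : ∀ x u v, (t u v).eval x = true ↔ A x u v)
    (hd : ∀ u v, (t u v).depth ≤ s) (Y : Finset (Fin N → Bool))
    (hcov : ∀ x ∈ Y, ∀ u v, A x u v → u ∈ cov x ∨ v ∈ cov x)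
    (J : (Fin N → Bool) → Finset (Fin N)) {m : ℕ} {p : ℝ} (h0 : 0 ≤ p) (h1 : p ≤ 1)
    (hp : m * p ^ 2 = 1)
    (hJ : ∀ x ∈ Y, ∀ i ∈ J x, ∃ M : Finset (V × V), M.card = m ∧ Mat M ∧
      ∀ e ∈ M, e.1 ∉ cov x ∧ e.2 ∉ cov x ∧ A (fl i x) e.1 e.2)
    (hJY : ∀ x, x ∉ Y → J x = ∅) :
    (∑ x, ((J x).card : ℝ)) / 2 ^ N ≤ 6 * (1 + p * Fintype.card V) * s := by
  have hs0 : (0 : ℝ) < s := by exact_mod_cast hs
  have hpow : (0 : ℝ) < 2 ^ N := by positivity
  have hsum := jump_sum A cov hs t hA hd Y hcov J h0 h1 hp hJ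
  obtain ⟨P, hP⟩ : ∃ P : ℝ, P = p * Fintype.card V := ⟨_, rfl⟩
  rw [← hP] at hsum ⊢
  have hP0 : 0 ≤ P := by rw [hP]; positivity
  have h2 : ∑ x ∈ Y, (2 : ℝ) ^ (((J x).card : ℝ) / (6 * s)) ≤ 2 ^ P * 2 ^ N := by
    have e1 : ∀ x, (2 : ℝ) ^ (((J x).card : ℝ) / (6 * s)) =
        2 ^ P * (2 : ℝ) ^ (((J x).card : ℝ) / (6 * s) - P) := by
      intro x
      rw [← Real.rpow_add (by norm_num)]
      congr 1
      ring
    rw [Finset.sum_congr rfl fun x _ => e1 x, ← Finset.mul_sum]
    exact mul_le_mul_of_nonneg_left hsum (by positivity)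
  have h3 : ∑ x : Fin N → Bool, (2 : ℝ) ^ (((J x).card : ℝ) / (6 * s)) ≤
      2 ^ P * 2 ^ N + 2 ^ N := by
    rw [← Finset.sum_add_sum_compl Y]
    refine add_le_add h2 ?_
    have e1 : ∀ x ∈ Yᶜ, (2 : ℝ) ^ (((J x).card : ℝ) / (6 * s)) = 1 := by
      intro x hx
      rw [hJY x (Finset.mem_compl.1 hx)]
      simp
    rw [Finset.sum_congr rfl e1, Finset.sum_const, nsmul_eq_mul, mul_one]
    have : (Yᶜ).card ≤ 2 ^ N := by
      refine (Finset.card_le_univ _).trans ?_
      simp
    exact_mod_cast this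
  have h4 := jensen (univ : Finset (Fin N → Bool)) (fun _ => 1 / (2 : ℝ) ^ N)
    (fun x => ((J x).card : ℝ) / (6 * s)) (fun _ _ => by positivity) (by
      rw [Finset.sum_const, Finset.card_univ, Fintype.card_fun, Fintype.card_bool,
        Fintype.card_fin, nsmul_eq_mul]
      push_cast
      field_simp)
  rw [← Finset.mul_sum, ← Finset.mul_sum] at h4
  have h5 : (1 / (2 : ℝ) ^ N) * ∑ x : Fin N → Bool, (2 : ℝ) ^ (((J x).card : ℝ) / (6 * s)) ≤
      2 ^ (P + 1) := by
    calc (1 / (2 : ℝ) ^ N) * ∑ x : Fin N → Bool, (2 : ℝ) ^ (((J x).card : ℝ) / (6 * s))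
        ≤ (1 / (2 : ℝ) ^ N) * (2 ^ P * 2 ^ N + 2 ^ N) :=
          mul_le_mul_of_nonneg_left h3 (by positivity)
      _ = 2 ^ P + 1 := by field_simp
      _ ≤ 2 ^ P + 2 ^ P := by
          have : (1 : ℝ) ≤ 2 ^ P := Real.one_le_rpow (by norm_num) hP0
          linarith
      _ = 2 ^ (P + 1) := by rw [Real.rpow_add (by norm_num), Real.rpow_one]; ring
  have h6 := h4.trans h5
  rw [Real.rpow_le_rpow_left_iff (by norm_num)] at h6
  rw [← Finset.sum_div] at h6
  have h7 : (∑ x : Fin N → Bool, ((J x).card : ℝ)) / 2 ^ N =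
      (1 / (2 : ℝ) ^ N * ((∑ x : Fin N → Bool, ((J x).card : ℝ)) / (6 * s))) * (6 * s) := by
    field_simp
  rw [h7]
  calc (1 / (2 : ℝ) ^ N * ((∑ x : Fin N → Bool, ((J x).card : ℝ)) / (6 * s))) * (6 * s)
      ≤ (P + 1) * (6 * s) := mul_le_mul_of_nonneg_right h6 (by positivity)
    _ = 6 * (1 + P) * s := by ring

end graph

end Pool.Agent.U121.VC
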