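import Pool.Agent.U121.VC.Gen

set_option autoImplicit false
set_option linter.unusedSectionVars false
set_option linter.unusedVariables false

/-!
U121/VC (helper121, MP_cff830_lc): weighted graphs computed by circuits of small depth, and jumps of
the weight of the vertex covers.
-/

namespace Pool.Agent.U121.VC

open Finset DomAC0 H568R2 Pool.Agent.TH163.AC3 Pool.Agent.U47.AC
open Pool.Agent.Y601.SSE hiding flip

open scoped Classical

variable {N : ℕ}

/-- from a no-instance to a yes-instance -/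
def Qno (W : Finset (Fin N → Bool)) (f : (Fin N → Bool) → Bool) (x : Fin N → Bool) (i : Fin N) :
    Prop := x ∈ W ∧ fl i x ∈ W ∧ f x = false ∧ f (fl i x) = true

/-- from a yes-instance to a no-instance -/
def Qyes (W : Finset (Fin N → Bool)) (f : (Fin N → Bool) → Bool) (x : Fin N → Bool) (i : Fin N) :
    Prop := x ∈ W ∧ fl i x ∈ W ∧ f x = true ∧ f (fl i x) = false

lemma fl_fl (i : Fin N) (x : Fin N → Bool) : fl i (fl i x) = x := flip_flip i x

lemma avg_no_yes (W : Finset (Fin N → Bool)) (f : (Fin N → Bool) → Bool) :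
    avgQ (Qno W f) = avgQ (Qyes W f) := by
  unfold avgQ
  congr 1
  have e1 : ∀ Q : (Fin N → Bool) → Fin N → Prop,
      ∑ x, ((univ.filter fun i => Q x i).card : ℝ) = ∑ i, ∑ x, if Q x i then (1 : ℝ) else 0 := by
    intro Q
    rw [Finset.sum_comm]
    refine Finset.sum_congr rfl fun x _ => ?_
    rw [Finset.card_filter]
    push_cast
    rfl
  rw [e1, e1]
  refine Finset.sum_congr rfl fun i _ => ?_
  refine Fintype.sum_equiv ⟨fl i, fl i, fl_fl i, fl_fl i⟩ _ _ fun x => ?_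
  have h : Qno W f x i ↔ Qyes W f (fl i x) i := by
    unfold Qno Qyes
    rw [fl_fl]
    tauto
  show (if Qno W f x i then (1 : ℝ) else 0) = if Qyes W f (fl i x) i then (1 : ℝ) else 0
  by_cases h1 : Qno W f x i
  · rw [if_pos h1, if_pos (h.1 h1)]
  · rw [if_neg h1, if_neg fun g => h1 (h.2 g)]

lemma avg_sum (W : Finset (Fin N → Bool)) (f : (Fin N → Bool) → Bool) :
    avgSens W f = avgQ (Qno W f) + avgQ (Qyes W f) := by
  unfold avgQ avgSens
  rw [← add_div, ← Finset.sum_add_distrib]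
  congr 1
  refine Finset.sum_congr rfl fun x _ => ?_
  have h1 : (univ.filter fun i => Sens W f x i).card =
      (univ.filter fun i => Qno W f x i).card + (univ.filter fun i => Qyes W f x i).card := by
    rw [← Finset.card_union_of_disjoint]
    · congr 1
      ext i
      simp only [mem_filter, mem_univ, true_and, mem_union]
      unfold Sens Qno Qyes
      show x ∈ W ∧ fl i x ∈ W ∧ f x ≠ f (fl i x) ↔ _
      cases h1 : f x <;> cases h2 : f (fl i x) <;> simp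
    · rw [Finset.disjoint_left]
      intro i hi hi'
      rw [mem_filter] at hi hi'
      have h3 := hi.2.2.2.1
      have h4 := hi'.2.2.2.1
      rw [h3] at h4
      exact absurd h4 (by simp)
  rw [h1]
  push_cast
  rfl

lemma avg_no (W : Finset (Fin N → Bool)) (f : (Fin N → Bool) → Bool) :
    avgQ (Qno W f) = avgSens W f / 2 := by
  have := avg_sum W f
  rw [← avg_no_yes] at this
  linarith

lemma avg_yes (W : Finset (Fin N → Bool)) (f : (Fin N → Bool) → Bool) :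
    avgQ (Qyes W f) = avgSens W f / 2 := by
  rw [← avg_no_yes, avg_no]

section no

/-- the property `P` is constant or computed by a node of depth at most `h` -/
def Comp (C : Circuit (Fin N)) (h : ℕ) (P : (Fin N → Bool) → Prop) : Prop :=
  (∀ x, P x) ∨ (∀ x, ¬ P x) ∨
    ∃ node : Fin N ⊕ Fin C.size, C.nodeDepth node ≤ h ∧ ∀ x, C.nodeVal x node = true ↔ P x

variable {V : Type} [Fintype V] {s h : ℕ} {C : Circuit (Fin N)}

lemma Comp.dt {P : (Fin N → Bool) → Prop} (hP : Comp C h P) (hs : 1 ≤ s) {ρ : Restr (Fin N)}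
    (hρ : Shallow C s h ρ) : HasDT s (fun x => decide (P (ov ρ x))) := by
  rcases hP with hP | hP | ⟨node, h1, h2⟩
  · exact hasDT_const true (fun x => decide_eq_true (hP _)) s
  · exact hasDT_const false (fun x => decide_eq_false (hP _)) s
  · have hdt := node_dt C hs hρ node h1
    have e : (fun x => decide (P (ov ρ x))) = rs (fun x => C.nodeVal x node) ρ := by
      funext x
      show decide (P (ov ρ x)) = C.nodeVal (ov ρ x) node
      have h3 := h2 (ov ρ x)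
      cases h4 : C.nodeVal (ov ρ x) node
      · rw [h4] at h3
        exact decide_eq_false fun g => by simpa using h3.2 g
      · exact decide_eq_true (h3.1 h4)
    rw [e]
    exact hdt

lemma Comp.sens {P : (Fin N → Bool) → Prop} (hP : Comp C h P) (hs : 1 ≤ s) {ρ : Restr (Fin N)}
    (hρ : Shallow C s h ρ) (x : Fin N → Bool) (J : Finset (Fin N)) (hJ : ∀ i ∈ J, ρ i = none) :
    (J.filter fun i => ¬ (P (fl i (ov ρ x)) ↔ P (ov ρ x))).card ≤ s := by
  refine le_trans (card_le_card ?_) (sens_le (hP.dt hs hρ) J x)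
  intro i hi
  rw [mem_filter] at hi ⊢
  refine ⟨hi.1, fun g => hi.2 ?_⟩
  have g' : decide (P (ov ρ (Y601.SSE.flip i x))) = decide (P (ov ρ x)) := g
  rw [ov_flip ρ i (hJ i hi.1)] at g'
  exact decide_eq_decide.1 g'

/-- the covers of the neighbouring yes-instances, for a no-instance -/
theorem no_pack (hs : 1 ≤ s) {ρ : Restr (Fin N)} (hρ : Shallow C s h ρ)
    (G : (Fin N → Bool) → SimpleGraph V) (w : (Fin N → Bool) → V → ℝ)
    (hE : ∀ u v, Comp C h fun x => (G x).Adj u v)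
    (hW : ∀ v a, Comp C h fun x => w x v = a)
    (hw : ∀ x v, 0 ≤ w x v) {k : ℝ} (W : Finset (Fin N → Bool)) (f : (Fin N → Bool) → Bool)
    (hyes : ∀ x ∈ W, f x = true → ∃ X : Finset V, Cov (G x).Adj X ∧ ∑ v ∈ X, w x v ≤ k)
    (x : Fin N → Bool) (J : Finset (Fin N))
    (hJ : ∀ i ∈ J, ρ i = none ∧ Qno W f (ov ρ x) i) :
    ∃ (D : {i // i ∈ J} → Finset V) (bad : V → V → Finset {i // i ∈ J}),
      (∀ u v, bad u v = bad v u) ∧ (∀ u v, ((bad u v).card : ℝ) ≤ 3 * s) ∧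
      (∀ u v, (G (ov ρ x)).Adj u v → ∀ i, i ∉ bad u v → u ∈ D i ∨ v ∈ D i) ∧
      (∀ i, ∑ v ∈ D i, w (ov ρ x) v ≤ k) := by
  have hcov : ∀ i : {i // i ∈ J}, ∃ X : Finset V, Cov (G (fl i.1 (ov ρ x))).Adj X ∧
      ∑ v ∈ X, w (fl i.1 (ov ρ x)) v ≤ k := fun i =>
    hyes _ (hJ i.1 i.2).2.2.1 (hJ i.1 i.2).2.2.2.2
  choose X hX1 hX2 using hcov
  have hbad1 : ∀ u v, (J.filter fun i => ¬ ((G (fl i (ov ρ x))).Adj u v ↔
      (G (ov ρ x)).Adj u v)).card ≤ s := fun u v =>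
    (hE u v).sens hs hρ x J fun i hi => (hJ i hi).1
  have hbad2 : ∀ v, (J.filter fun i => w (fl i (ov ρ x)) v ≠ w (ov ρ x) v).card ≤ s := by
    intro v
    refine le_trans (card_le_card ?_) ((hW v (w (ov ρ x) v)).sens hs hρ x J
      fun i hi => (hJ i hi).1)
    intro i hi
    rw [mem_filter] at hi ⊢
    exact ⟨hi.1, fun g => hi.2 (g.2 rfl)⟩
  refine ⟨fun i => (X i).filter fun v => w (fl i.1 (ov ρ x)) v = w (ov ρ x) v,
    fun u v => univ.filter fun i : {i // i ∈ J} =>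
      ¬ ((G (fl i.1 (ov ρ x))).Adj u v ↔ (G (ov ρ x)).Adj u v) ∨
      (w (fl i.1 (ov ρ x)) u ≠ w (ov ρ x) u ∨ w (fl i.1 (ov ρ x)) v ≠ w (ov ρ x) v),
    ?_, ?_, ?_, ?_⟩
  · intro u v
    ext i
    simp only [mem_filter, mem_univ, true_and]
    rw [(G (fl i.1 (ov ρ x))).adj_comm u v, (G (ov ρ x)).adj_comm u v]
    tauto
  · intro u v
    have h1 : (univ.filter fun i : {i // i ∈ J} =>
        ¬ ((G (fl i.1 (ov ρ x))).Adj u v ↔ (G (ov ρ x)).Adj u v) ∨
        (w (fl i.1 (ov ρ x)) u ≠ w (ov ρ x) u ∨ w (fl i.1 (ov ρ x)) v ≠ w (ov ρ x) v)).card ≤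
        3 * s := by
      refine le_trans (card_le_card_of_injOn (t := (J.filter fun i =>
        ¬ ((G (fl i (ov ρ x))).Adj u v ↔ (G (ov ρ x)).Adj u v)) ∪
        ((J.filter fun i => w (fl i (ov ρ x)) u ≠ w (ov ρ x) u) ∪
          (J.filter fun i => w (fl i (ov ρ x)) v ≠ w (ov ρ x) v))) (fun i => i.1) ?_
          (Subtype.val_injective.injOn)) ?_
      · intro i hi
        simp only [coe_filter, mem_univ, true_and, Set.mem_ofPred_eq] at hi
        simp only [coe_union, coe_filter, Set.mem_union, Set.mem_ofPred_eq]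
        have := i.2
        tauto
      · refine (card_union_le _ _).trans ?_
        have h2 := card_union_le (J.filter fun i => w (fl i (ov ρ x)) u ≠ w (ov ρ x) u)
          (J.filter fun i => w (fl i (ov ρ x)) v ≠ w (ov ρ x) v)
        have h3 := hbad1 u v
        have h4 := hbad2 u
        have h5 := hbad2 v
        omega
    exact_mod_cast h1
  · intro u v huv i hi
    simp only [mem_filter, mem_univ, true_and, not_or, not_not] at hi
    have h1 := (hi.1).2 huv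
    rcases hX1 i u v h1 with h2 | h2
    · exact Or.inl (mem_filter.2 ⟨h2, hi.2.1⟩)
    · exact Or.inr (mem_filter.2 ⟨h2, hi.2.2⟩)
  · intro i
    calc ∑ v ∈ (X i).filter fun v => w (fl i.1 (ov ρ x)) v = w (ov ρ x) v, w (ov ρ x) v
        = ∑ v ∈ (X i).filter fun v => w (fl i.1 (ov ρ x)) v = w (ov ρ x) v,
            w (fl i.1 (ov ρ x)) v :=
          Finset.sum_congr rfl fun v hv => ((mem_filter.1 hv).2).symm
      _ ≤ ∑ v ∈ X i, w (fl i.1 (ov ρ x)) v :=
          Finset.sum_le_sum_of_subset_of_nonneg (filter_subset _ _) fun v _ _ => hw _ _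
      _ ≤ k := hX2 i

/-- the bound of `J` for a ratio larger than 2 -/
lemma lp_bound {m s ρ₀ : ℝ} (hρ : 2 < ρ₀) (h : m * (ρ₀ - 2) ≤ 3 * s * ρ₀) :
    m ≤ 3 * ρ₀ / (ρ₀ - 2) * s := by
  have : 0 < ρ₀ - 2 := by linarith
  rw [div_mul_eq_mul_div, le_div_iff₀ this]
  linarith

/-- the bound of `J` for a ratio close to 2 -/
lemma vote_bound {c n : ℕ} (hc : 1 ≤ c) (hn : 1 ≤ n) {m s : ℝ} (hs : 1 ≤ s) (hm : 0 < m)
    (h : 1 / (100 * c) < (n : ℝ) ^ 2 *
      (((36 * c ^ 2 + 2 * c + 1 : ℕ) : ℝ) * (3 * s / m)) ^ (2 * c + 1)) :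
    m ≤ 12000 * c ^ 3 * (n : ℝ) ^ (1 / (c : ℝ)) * s := by
  have hc1 : (1 : ℝ) ≤ c := by exact_mod_cast hc
  have hn1 : (1 : ℝ) ≤ n := by exact_mod_cast hn
  obtain ⟨P, hP⟩ : ∃ P : ℝ, P = (n : ℝ) ^ (1 / (c : ℝ)) := ⟨_, rfl⟩
  have hP1 : 1 ≤ P := by
    rw [hP]
    exact Real.one_le_rpow hn1 (by positivity)
  have hPc : P ^ c = n := by
    rw [hP, ← Real.rpow_natCast, ← Real.rpow_mul (by positivity), one_div,
      inv_mul_cancel₀ (by positivity), Real.rpow_one]
  rw [← hP]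
  by_contra hcon
  push Not at hcon
  have h1 : ((36 * c ^ 2 + 2 * c + 1 : ℕ) : ℝ) * (3 * s / m) ≤ 1 / (100 * c) / P := by
    rw [← mul_div_assoc, div_div, div_le_div_iff₀ hm (by positivity)]
    push_cast
    have h2 : (36 * (c : ℝ) ^ 2 + 2 * c + 1) ≤ 39 * c ^ 2 := by nlinarith
    calc (36 * (c : ℝ) ^ 2 + 2 * c + 1) * (3 * s) * (100 * c * P)
        ≤ (39 * (c : ℝ) ^ 2) * (3 * s) * (100 * c * P) := by
          apply mul_le_mul_of_nonneg_right _ (by positivity)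
          exact mul_le_mul_of_nonneg_right h2 (by positivity)
      _ ≤ 12000 * c ^ 3 * P * s := by
          have : 0 ≤ (c : ℝ) ^ 3 * P * s := by positivity
          nlinarith
      _ ≤ 1 * m := by linarith
  have h3 : (n : ℝ) ^ 2 * (((36 * c ^ 2 + 2 * c + 1 : ℕ) : ℝ) * (3 * s / m)) ^ (2 * c + 1) ≤
      (n : ℝ) ^ 2 * (1 / (100 * c) / P) ^ (2 * c + 1) := by
    apply mul_le_mul_of_nonneg_left _ (by positivity)
    exact pow_le_pow_left₀ (by positivity) h1 _
  have h4 : (n : ℝ) ^ 2 * (1 / (100 * c) / P) ^ (2 * c + 1) ≤ 1 / (100 * c) := by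
    have h5 : (n : ℝ) ^ 2 * (1 / (100 * c) / P) ^ (2 * c + 1) =
        (1 / (100 * c)) ^ (2 * c + 1) / P := by
      rw [div_pow, ← hPc, pow_succ P (2 * c), mul_comm 2 c, pow_mul]
      have : P ^ c ≠ 0 := by positivity
      field_simp
    rw [h5]
    have h6 : (1 / (100 * (c : ℝ))) ^ (2 * c + 1) ≤ 1 / (100 * c) := by
      have h7 : 1 / (100 * (c : ℝ)) ≤ 1 := by
        rw [div_le_one (by positivity)]; linarith
      calc (1 / (100 * (c : ℝ))) ^ (2 * c + 1) ≤ (1 / (100 * (c : ℝ))) ^ 1 :=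
            pow_le_pow_of_le_one (by positivity) h7 (by omega)
        _ = _ := pow_one _
    calc (1 / (100 * (c : ℝ))) ^ (2 * c + 1) / P ≤ (1 / (100 * (c : ℝ))) ^ (2 * c + 1) / 1 := by
          apply div_le_div_of_nonneg_left (by positivity) (by norm_num) hP1
      _ ≤ 1 / (100 * c) := by rw [div_one]; exact h6
  linarith

/-- the bound of `J` for small degrees -/
lemma deg_bound {m s γ Δ : ℝ} (hγ : 0 < γ) (h : m * γ ≤ 3 * s * (2 * Δ * (1 + γ))) :
    m ≤ 6 * Δ * (1 + γ) / γ * s := by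
  rw [div_mul_eq_mul_div, le_div_iff₀ hγ]
  linarith

lemma Ex_le_of {B : ℝ} {ρ : Restr (Fin N)} (Q : (Fin N → Bool) → Fin N → Prop)
    (hQ : ∀ (x : Fin N → Bool) (J : Finset (Fin N)),
      (∀ i ∈ J, ρ i = none ∧ Q (ov ρ x) i) → (J.card : ℝ) ≤ B * s) :
    Ex half (fun x => ((univ.filter fun i => ρ i = none ∧ Q (ov ρ x) i).card : ℝ)) ≤ B * s := by
  rw [← Ex_const (I := Fin N) half_sum (B * (s : ℝ))]
  refine Ex_mono half_nonneg fun x => ?_
  exact hQ x _ fun i hi => (mem_filter.1 hi).2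

end no

/-- weighted graphs computed by the nodes of depth at most `h` of a circuit, with covers of weight at
most `k` for the yes-instances -/
structure Data (h : ℕ) {V : Type} [Fintype V] (C : Circuit (Fin N))
    (G : (Fin N → Bool) → SimpleGraph V) (w : (Fin N → Bool) → V → ℝ)
    (W : Finset (Fin N → Bool)) (f : (Fin N → Bool) → Bool) (k ρ₀ : ℝ) : Prop where
  edge : ∀ u v, Comp C h fun x => (G x).Adj u v
  weight : ∀ v a, Comp C h fun x => w x v = a
  nonneg : ∀ x v, 0 ≤ w x v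
  pos : 0 < k
  yes : ∀ x ∈ W, f x = true → ∃ X : Finset V, Cov (G x).Adj X ∧ ∑ v ∈ X, w x v ≤ k
  no : ∀ x ∈ W, f x = false → ∀ X : Finset V, Cov (G x).Adj X → ρ₀ * k ≤ ∑ v ∈ X, w x v

theorem Data.pack {s h : ℕ} {V : Type} [Fintype V] {C : Circuit (Fin N)}
    {G : (Fin N → Bool) → SimpleGraph V} {w : (Fin N → Bool) → V → ℝ}
    {W : Finset (Fin N → Bool)} {f : (Fin N → Bool) → Bool} {k ρ₀ : ℝ}
    (hD : Data h C G w W f k ρ₀) (hs : 1 ≤ s) {ρ : Restr (Fin N)} (hρ : Shallow C s h ρ)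
    (x : Fin N → Bool) (J : Finset (Fin N))
    (hJ : ∀ i ∈ J, ρ i = none ∧ Qno W f (ov ρ x) i) :
    ∃ (D : {i // i ∈ J} → Finset V) (bad : V → V → Finset {i // i ∈ J}),
      (∀ u v, bad u v = bad v u) ∧ (∀ u v, ((bad u v).card : ℝ) ≤ 3 * s) ∧
      (∀ u v, (G (ov ρ x)).Adj u v → ∀ i, i ∉ bad u v → u ∈ D i ∨ v ∈ D i) ∧
      (∀ i, ∑ v ∈ D i, w (ov ρ x) v ≤ k) :=
  no_pack hs hρ G w hD.edge hD.weight hD.nonneg W f hD.yes x J hJ

/-- the three bounds for the number of the bits, for weighted graphs -/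
theorem no_main (h : ℕ) : ∃ X0 : ℝ, 0 < X0 ∧ ∀ {N : ℕ} {V : Type} [Fintype V]
    {C : Circuit (Fin N)} {G : (Fin N → Bool) → SimpleGraph V} {w : (Fin N → Bool) → V → ℝ}
    {W : Finset (Fin N → Bool)} {f : (Fin N → Bool) → Bool} {k ρ₀ : ℝ},
    Data h C G w W f k ρ₀ → ∀ X : ℝ, X0 ≤ X →
    ((2 < ρ₀ ∧ X ≤ (1 - 2 / ρ₀) / 6 * avgSens W f) ∨
      (∃ c : ℕ, 1 ≤ c ∧ 2 - 1 / (40 * c) ≤ ρ₀ ∧
        X ≤ avgSens W f / (24000 * c ^ 3 * (Fintype.card V : ℝ) ^ (1 / (c : ℝ)))) ∨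
      (1 < ρ₀ ∧ ∃ Δ : ℝ, 1 ≤ Δ ∧ (∀ x ∈ W, f x = false → ∀ u,
        ((univ.filter fun v => (G x).Adj u v).card : ℝ) ≤ Δ) ∧
        X ≤ (1 - 1 / ρ₀) / (12 * Δ) * avgSens W f)) →
    (2 : ℝ) ^ (X ^ (1 / (h + 1 : ℝ)) / 100) ≤ C.size * N := by
  obtain ⟨X0, hX0, hmain⟩ := main_gen h
  refine ⟨X0, hX0, ?_⟩
  intro N V _ C G w W f k ρ₀ hD X hX hcases
  have hpos : 0 < X := lt_of_lt_of_le hX0 hX
  -- it suffices to bound the number of bits
  have key : ∀ B : ℝ, 1 / 2 ≤ B → X ≤ avgSens W f / 2 / B →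
      (∀ s : ℕ, 1 ≤ s → ∀ ρ : Restr (Fin N), Shallow C s h ρ → ∀ (x : Fin N → Bool)
        (J : Finset (Fin N)), (∀ i ∈ J, ρ i = none ∧ Qno W f (ov ρ x) i) →
        0 < J.card → (J.card : ℝ) ≤ B * s) →
      (2 : ℝ) ^ (X ^ (1 / (h + 1 : ℝ)) / 100) ≤ C.size * N := by
    intro B hB hXB hJ
    have h1 := hmain C (Qno W f) hB (fun s hs ρ hρ => Ex_le_of _ fun x J hJ' => by
      rcases Nat.eq_zero_or_pos J.card with h0 | h0
      · rw [h0, Nat.cast_zero]
        have : (0 : ℝ) ≤ B := by linarith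
        positivity
      · exact hJ s hs ρ hρ x J hJ' h0) (by rw [avg_no]; exact hX.trans hXB)
    refine le_trans ?_ h1
    apply Real.rpow_le_rpow_of_exponent_le (by norm_num)
    apply div_le_div_of_nonneg_right _ (by norm_num)
    apply Real.rpow_le_rpow hpos.le _ (by positivity)
    rw [avg_no]
    exact hXB
  rcases hcases with ⟨hρ, hX'⟩ | ⟨c, hc, hρ, hX'⟩ | ⟨hρ, Δ, hΔ, hdeg, hX'⟩
  · have hr : 0 < ρ₀ - 2 := by linarith
    have hr0 : 0 < ρ₀ := by linarith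
    refine key (3 * ρ₀ / (ρ₀ - 2)) ?_ ?_ ?_
    · rw [div_le_div_iff₀ (by norm_num) hr]; linarith
    · refine hX'.trans (le_of_eq ?_)
      field_simp
      ring
    · intro s hs ρ hρ' x J hJ hJ0
      obtain ⟨D, bad, -, h2, h3, h4⟩ := hD.pack hs hρ' x J hJ
      obtain ⟨i, hi⟩ := Finset.card_pos.1 hJ0
      have h5 := lp_cover (hD.nonneg _) h3 h2 h4 hD.pos (by positivity) hρ.le
        (hD.no _ (hJ i hi).2.1 (hJ i hi).2.2.2.1)
      rw [Fintype.card_coe] at h5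
      exact lp_bound hρ h5
  · have hc1 : (1 : ℝ) ≤ c := by exact_mod_cast hc
    rcases Nat.eq_zero_or_pos (Fintype.card V) with hV | hV
    · exfalso
      rw [hV, Nat.cast_zero, Real.zero_rpow (by positivity), mul_zero, div_zero] at hX'
      linarith
    · have hV1 : (1 : ℝ) ≤ Fintype.card V := by exact_mod_cast hV
      have hP1 : 1 ≤ (Fintype.card V : ℝ) ^ (1 / (c : ℝ)) :=
        Real.one_le_rpow hV1 (by positivity)
      have hc3 : (1 : ℝ) ≤ c ^ 3 := one_le_pow₀ hc1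
      refine key (12000 * c ^ 3 * (Fintype.card V : ℝ) ^ (1 / (c : ℝ))) ?_ ?_ ?_
      · nlinarith
      · refine hX'.trans (le_of_eq ?_)
        rw [div_div]
        congr 1
        ring
      · intro s hs ρ hρ' x J hJ hJ0
        obtain ⟨D, bad, -, h2, h3, h4⟩ := hD.pack hs hρ' x J hJ
        obtain ⟨i, hi⟩ := Finset.card_pos.1 hJ0
        have h5 := vote_cover (hD.nonneg _) h3 h2 h4 hD.pos (by positivity) hc hρ
          (hD.no _ (hJ i hi).2.1 (hJ i hi).2.2.2.1) (by rw [Fintype.card_coe]; exact hJ0)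
        rw [Fintype.card_coe] at h5
        exact vote_bound hc hV (by exact_mod_cast hs) (by exact_mod_cast hJ0) h5
  · have hr0 : 0 < ρ₀ := by linarith
    have hγ : 0 < ρ₀ - 1 := by linarith
    have hΔ0 : 0 < Δ := by linarith
    refine key (6 * Δ * (1 + (ρ₀ - 1)) / (ρ₀ - 1)) ?_ ?_ ?_
    · rw [div_le_div_iff₀ (by norm_num) hγ]; nlinarith
    · refine hX'.trans (le_of_eq ?_)
      have e1 : 1 + (ρ₀ - 1) = ρ₀ := by ring
      rw [e1]
      field_simp
      ring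
    · intro s hs ρ hρ' x J hJ hJ0
      obtain ⟨D, bad, h1, h2, h3, h4⟩ := hD.pack hs hρ' x J hJ
      obtain ⟨i, hi⟩ := Finset.card_pos.1 hJ0
      have h5 := deg_cover (hD.nonneg _) (fun u v g => g.symm) h1 h3 h2 h4 hD.pos (by positivity)
        hγ (hdeg _ (hJ i hi).2.1 (hJ i hi).2.2.2.1) (fun X hX => by
          have := hD.no _ (hJ i hi).2.1 (hJ i hi).2.2.2.1 X hX
          have e1 : 1 + (ρ₀ - 1) = ρ₀ := by ring
          rw [e1]
          exact this)
      rw [Fintype.card_coe] at h5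
      exact deg_bound hγ h5

end Pool.Agent.U121.VC
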