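import Mathlib

set_option autoImplicit false
set_option linter.unusedSectionVars false
set_option linter.unusedVariables false

/-!
U121/VC (helper121, MP_cff830_lc): binomial tails.
-/

namespace Pool.Agent.U121.VC

open Finset

/-- the probability that at least `t` of `n` independent events of probability `q` occur -/
noncomputable def tail : ℕ → ℕ → ℝ → ℝ
  | _, 0, _ => 1
  | 0, _ + 1, _ => 0
  | n + 1, t + 1, q => q * tail n t q + (1 - q) * tail n (t + 1) q

lemma tail_zero (n : ℕ) (q : ℝ) : tail n 0 q = 1 := by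
  cases n <;> rfl

lemma tail_zero_succ (t : ℕ) (q : ℝ) : tail 0 (t + 1) q = 0 := rfl

lemma tail_succ (n t : ℕ) (q : ℝ) :
    tail (n + 1) (t + 1) q = q * tail n t q + (1 - q) * tail n (t + 1) q := rfl

lemma tail_nonneg {q : ℝ} (h0 : 0 ≤ q) (h1 : q ≤ 1) (n : ℕ) : ∀ t, 0 ≤ tail n t q := by
  induction n with
  | zero => intro t; cases t <;> simp [tail]
  | succ n ih =>
    intro t
    cases t with
    | zero => rw [tail_zero]; norm_num
    | succ t =>
      rw [tail_succ]
      have := ih t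
      have := ih (t + 1)
      have : 0 ≤ 1 - q := by linarith
      positivity

lemma tail_le_one {q : ℝ} (h0 : 0 ≤ q) (h1 : q ≤ 1) (n : ℕ) : ∀ t, tail n t q ≤ 1 := by
  induction n with
  | zero => intro t; cases t <;> simp [tail]
  | succ n ih =>
    intro t
    cases t with
    | zero => rw [tail_zero]
    | succ t =>
      rw [tail_succ]
      have h2 := ih t
      have h3 := ih (t + 1)
      have : 0 ≤ 1 - q := by linarith
      nlinarith

lemma tail_anti {q : ℝ} (h0 : 0 ≤ q) (h1 : q ≤ 1) (n : ℕ) : ∀ t, tail n (t + 1) q ≤ tail n t q := by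
  induction n with
  | zero => intro t; cases t <;> simp [tail]
  | succ n ih =>
    intro t
    cases t with
    | zero => rw [tail_zero]; exact tail_le_one h0 h1 _ _
    | succ t =>
      rw [tail_succ, tail_succ]
      have h2 := ih t
      have h3 := ih (t + 1)
      have : 0 ≤ 1 - q := by linarith
      nlinarith

lemma tail_mono {q q' : ℝ} (h0 : 0 ≤ q) (h : q ≤ q') (h1 : q' ≤ 1) (n : ℕ) :
    ∀ t, tail n t q ≤ tail n t q' := by
  induction n with
  | zero => intro t; cases t <;> simp [tail]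
  | succ n ih =>
    intro t
    cases t with
    | zero => rw [tail_zero, tail_zero]
    | succ t =>
      rw [tail_succ, tail_succ]
      have h2 := ih t
      have h3 := ih (t + 1)
      have h4 := tail_anti (h0.trans h) h1 n t
      have h5 : 0 ≤ 1 - q := by linarith
      calc q * tail n t q + (1 - q) * tail n (t + 1) q
          ≤ q * tail n t q' + (1 - q) * tail n (t + 1) q' := by
            exact add_le_add (mul_le_mul_of_nonneg_left h2 h0) (mul_le_mul_of_nonneg_left h3 h5)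
        _ ≤ q' * tail n t q' + (1 - q') * tail n (t + 1) q' := by nlinarith

lemma tail_step {q : ℝ} (h0 : 0 ≤ q) (h1 : q ≤ 1) (n : ℕ) :
    ∀ t : ℕ, (t + 1) * tail (n + 1) (t + 1) q ≤ (n + 1) * q * tail n t q := by
  induction n with
  | zero =>
    intro t
    rw [tail_succ, tail_zero_succ]
    cases t with
    | zero => rw [tail_zero]; norm_num
    | succ t => rw [tail_zero_succ]; norm_num
  | succ n ih =>
    intro t
    rw [tail_succ]
    have h2 := ih t
    have h3 : 0 ≤ 1 - q := by linarith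
    have h4 : (1 - q) * ((t + 1) * tail (n + 1) (t + 1) q) ≤ (1 - q) * ((n + 1) * q * tail n t q) :=
      mul_le_mul_of_nonneg_left h2 h3
    have h5 : q * ((t + 1) * tail (n + 1) t q + (1 - q) * (n + 1) * tail n t q) ≤
        q * ((n + 2) * tail (n + 1) t q) := by
      apply mul_le_mul_of_nonneg_left _ h0
      cases t with
      | zero =>
        rw [tail_zero, tail_zero]
        have : (0 : ℝ) ≤ n := Nat.cast_nonneg _
        push_cast
        nlinarith
      | succ t =>
        have h6 := ih t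
        have h7 : (1 - q) * tail n (t + 1) q = tail (n + 1) (t + 1) q - q * tail n t q := by
          rw [tail_succ]; ring
        have h8 : (1 - q) * (n + 1) * tail n (t + 1) q =
            (n + 1) * (tail (n + 1) (t + 1) q - q * tail n t q) := by
          rw [← h7]; ring
        rw [h8]
        push_cast
        nlinarith
    push_cast
    nlinarith

lemma tail_le_pow {q : ℝ} (h0 : 0 ≤ q) (h1 : q ≤ 1) (t : ℕ) :
    ∀ n : ℕ, tail n t q ≤ (n * q) ^ t := by
  induction t with
  | zero => intro n; rw [tail_zero, pow_zero]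
  | succ t ih =>
    intro n
    cases n with
    | zero => rw [tail_zero_succ]; positivity
    | succ n =>
      have h2 := tail_step h0 h1 n t
      have h3 := tail_nonneg h0 h1 (n + 1) (t + 1)
      have h4 : tail (n + 1) (t + 1) q ≤ (t + 1) * tail (n + 1) (t + 1) q := by
        have : (0 : ℝ) ≤ t := Nat.cast_nonneg _
        nlinarith
      have h5 : (n * q) ^ t ≤ ((n + 1 : ℝ) * q) ^ t := by
        apply pow_le_pow_left₀ (by positivity)
        nlinarith
      have h6 : (0 : ℝ) ≤ (n + 1) * q := by positivity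
      calc tail (n + 1) (t + 1) q ≤ (n + 1) * q * tail n t q := h4.trans h2
        _ ≤ (n + 1) * q * ((n + 1) * q) ^ t :=
            mul_le_mul_of_nonneg_left ((ih n).trans h5) h6
        _ = (((n + 1 : ℕ) : ℝ) * q) ^ (t + 1) := by push_cast; ring

lemma tail_sq {q : ℝ} (h0 : 0 ≤ q) (h1 : q ≤ 1) (n : ℕ) :
    ∀ t, tail n t q ^ 2 ≤ tail n t (1 / 2) * (1 + (2 * q - 1) ^ 2) ^ n := by
  have hh : ∀ n t, 0 ≤ tail n t (1 / 2) := fun n t => tail_nonneg (by norm_num) (by norm_num) n t
  induction n with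
  | zero => intro t; cases t <;> simp [tail]
  | succ n ih =>
    intro t
    have hc : 0 ≤ (2 * q - 1) ^ 2 := sq_nonneg _
    cases t with
    | zero =>
      rw [tail_zero, tail_zero, one_pow, one_mul]
      exact one_le_pow₀ (by linarith)
    | succ t =>
      rw [tail_succ, tail_succ]
      have h2 := ih t
      have h3 := ih (t + 1)
      obtain ⟨a, ha⟩ : ∃ a, a = tail n t q := ⟨_, rfl⟩
      obtain ⟨b, hb⟩ : ∃ b, b = tail n (t + 1) q := ⟨_, rfl⟩
      obtain ⟨A, hA⟩ : ∃ A, A = tail n t (1 / 2) := ⟨_, rfl⟩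
      obtain ⟨B, hB⟩ : ∃ B, B = tail n (t + 1) (1 / 2) := ⟨_, rfl⟩
      obtain ⟨P, hP⟩ : ∃ P, P = (1 + (2 * q - 1) ^ 2) ^ n := ⟨_, rfl⟩
      rw [← ha, ← hA, ← hP] at h2
      rw [← hb, ← hB, ← hP] at h3
      rw [← ha, ← hb, ← hA, ← hB, pow_succ (1 + (2 * q - 1) ^ 2) n, ← hP]
      have h4 : (q * a + (1 - q) * b) ^ 2 ≤ (q ^ 2 + (1 - q) ^ 2) * (a ^ 2 + b ^ 2) := by
        nlinarith [sq_nonneg (q * b - (1 - q) * a)]
      have h5 : (q ^ 2 + (1 - q) ^ 2) * (a ^ 2 + b ^ 2) ≤
          (q ^ 2 + (1 - q) ^ 2) * (A * P + B * P) :=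
        mul_le_mul_of_nonneg_left (add_le_add h2 h3) (by positivity)
      refine (h4.trans h5).trans (le_of_eq ?_)
      ring

/-- the probability of exactly `t` heads -/
lemma tail_point (n : ℕ) : ∀ t, tail n t (1 / 2) - tail n (t + 1) (1 / 2) = n.choose t / 2 ^ n := by
  induction n with
  | zero => intro t; cases t <;> simp [tail]
  | succ n ih =>
    intro t
    cases t with
    | zero =>
      have h := ih 0
      rw [tail_zero] at h
      rw [tail_zero, tail_succ, tail_zero, Nat.choose_zero_right, pow_succ]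
      rw [Nat.choose_zero_right] at h
      have h2 : ((1 : ℕ) : ℝ) / (2 ^ n * 2) = (((1 : ℕ) : ℝ) / 2 ^ n) / 2 := by
        rw [div_div]
      rw [h2, ← h]
      ring
    | succ t =>
      rw [tail_succ, tail_succ, Nat.choose_succ_succ, pow_succ]
      have h := ih t
      have h' := ih (t + 1)
      have h2 : (((n.choose t + n.choose (t + 1) : ℕ)) : ℝ) / (2 ^ n * 2) =
          ((n.choose t : ℝ) / 2 ^ n + (n.choose (t + 1) : ℝ) / 2 ^ n) / 2 := by
        push_cast
        field_simp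
      rw [Nat.succ_eq_add_one, h2, ← h, ← h']
      ring

lemma tail_gt (n : ℕ) (q : ℝ) : ∀ t, n < t → tail n t q = 0 := by
  induction n with
  | zero =>
    intro t ht
    cases t with
    | zero => omega
    | succ t => rfl
  | succ n ih =>
    intro t ht
    cases t with
    | zero => omega
    | succ t => rw [tail_succ, ih t (by omega), ih (t + 1) (by omega)]; ring

lemma tail_symm (n : ℕ) : ∀ a b, a + b = n + 1 → tail n a (1 / 2) + tail n b (1 / 2) = 1 := by
  induction n with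
  | zero =>
    intro a b h
    rcases Nat.eq_zero_or_pos a with h1 | h1
    · subst h1
      rw [tail_zero, tail_gt 0 _ b (by omega)]
      norm_num
    · have : b = 0 := by omega
      subst this
      rw [tail_zero, tail_gt 0 _ a (by omega)]
      norm_num
  | succ n ih =>
    intro a b h
    cases a with
    | zero => rw [tail_zero, tail_gt (n + 1) _ b (by omega)]; norm_num
    | succ a =>
      cases b with
      | zero => rw [tail_zero, tail_gt (n + 1) _ (a + 1) (by omega)]; norm_num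
      | succ b =>
        rw [tail_succ, tail_succ]
        have h1 := ih a (b + 1) (by omega)
        have h2 := ih (a + 1) b (by omega)
        linarith

lemma centralBinom_sq (m : ℕ) : m.centralBinom ^ 2 * (2 * m + 1) ≤ 16 ^ m := by
  induction m with
  | zero => simp
  | succ m ih =>
    have h := Nat.succ_mul_centralBinom_succ m
    have h1 : (m + 1) ^ 2 * ((m + 1).centralBinom ^ 2 * (2 * (m + 1) + 1)) =
        (2 * (2 * m + 1) * m.centralBinom) ^ 2 * (2 * (m + 1) + 1) := by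
      rw [← h]; ring
    have h2 : (2 * (2 * m + 1) * m.centralBinom) ^ 2 * (2 * (m + 1) + 1) =
        4 * ((2 * m + 1) * (2 * m + 3)) * (m.centralBinom ^ 2 * (2 * m + 1)) := by ring
    have h3 : (2 * m + 1) * (2 * m + 3) ≤ 4 * (m + 1) ^ 2 := by nlinarith
    have h4 : (m + 1) ^ 2 * ((m + 1).centralBinom ^ 2 * (2 * (m + 1) + 1)) ≤
        (m + 1) ^ 2 * 16 ^ (m + 1) := by
      rw [h1, h2]
      calc 4 * ((2 * m + 1) * (2 * m + 3)) * (m.centralBinom ^ 2 * (2 * m + 1))
          ≤ 4 * (4 * (m + 1) ^ 2) * 16 ^ m :=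
            Nat.mul_le_mul (Nat.mul_le_mul_left _ h3) ih
        _ = (m + 1) ^ 2 * 16 ^ (m + 1) := by rw [pow_succ]; ring
    exact Nat.le_of_mul_le_mul_left h4 (by positivity)

/-- the tail just below of the middle -/
lemma tail_half (c t : ℕ) (hc : 1 ≤ c) (ht : 18 * c ^ 2 ≤ t) :
    tail (2 * t + 2 * c) t (1 / 2) ≤ 3 / 4 := by
  obtain ⟨M, hM⟩ : ∃ M : ℝ, M = ((2 * (t + c)).choose (t + c) : ℝ) / 2 ^ (2 * (t + c)) := ⟨_, rfl⟩
  have hM0 : 0 ≤ M := by rw [hM]; positivity
  have hM2 : M ^ 2 * (2 * (t + c) + 1) ≤ 1 := by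
    have h := centralBinom_sq (t + c)
    unfold Nat.centralBinom at h
    have h' : (((2 * (t + c)).choose (t + c) : ℝ)) ^ 2 * (2 * ((t : ℝ) + c) + 1) ≤ 16 ^ (t + c) := by
      exact_mod_cast h
    rw [hM, div_pow, div_mul_eq_mul_div, div_le_one (by positivity)]
    refine h'.trans (le_of_eq ?_)
    rw [← pow_mul, mul_comm (2 * (t + c)) 2, ← mul_assoc, pow_mul]
    norm_num
  have hpt : ∀ j, tail (2 * t + 2 * c) j (1 / 2) - tail (2 * t + 2 * c) (j + 1) (1 / 2) ≤ M := by
    intro j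
    rw [tail_point, hM]
    have h1 : 2 * t + 2 * c = 2 * (t + c) := by ring
    rw [h1]
    apply div_le_div_of_nonneg_right _ (by positivity)
    have h2 := Nat.choose_le_middle j (2 * (t + c))
    rw [Nat.mul_div_cancel_left _ (by norm_num)] at h2
    exact_mod_cast h2
  have htel : ∀ d : ℕ, tail (2 * t + 2 * c) t (1 / 2) -
      tail (2 * t + 2 * c) (t + d) (1 / 2) ≤ d * M := by
    intro d
    induction d with
    | zero => simp
    | succ d ih =>
      have := hpt (t + d)
      rw [← add_assoc]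
      push_cast
      linarith
  have h1 := htel (2 * c + 1)
  have h2 := tail_symm (2 * t + 2 * c) t (t + (2 * c + 1)) (by ring)
  have h3 : (2 * (c : ℝ) + 1) * M ≤ 1 / 2 := by
    have h4 : (18 * (c : ℝ) ^ 2) ≤ t := by exact_mod_cast ht
    have hc1 : (1 : ℝ) ≤ c := by exact_mod_cast hc
    have h5 : (4 * (2 * (c : ℝ) + 1) ^ 2) ≤ 2 * (t + c) + 1 := by nlinarith
    have h6 : (2 * ((2 * (c : ℝ) + 1) * M)) ^ 2 ≤ 1 := by
      calc (2 * ((2 * (c : ℝ) + 1) * M)) ^ 2 = M ^ 2 * (4 * (2 * (c : ℝ) + 1) ^ 2) := by ring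
        _ ≤ M ^ 2 * (2 * (t + c) + 1) := mul_le_mul_of_nonneg_left h5 (sq_nonneg _)
        _ ≤ 1 := hM2
    have h7 : 2 * ((2 * (c : ℝ) + 1) * M) ≤ 1 := by
      have := abs_le_of_sq_le_sq' (a := 2 * ((2 * (c : ℝ) + 1) * M)) (b := 1)
        (by rw [one_pow]; exact h6) (by norm_num)
      exact this.2
    linarith
  push_cast at h1
  linarith

/-- the loss of the vote -/
lemma tail_ratio (c : ℕ) (hc : 1 ≤ c) {q : ℝ} (h0 : 0 ≤ q) (h1 : q ≤ 1) :
    tail (36 * c ^ 2 + 2 * c + 1) (18 * c ^ 2 + 1) q ≤ (2 - 1 / (20 * c)) * q := by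
  have hc1 : (1 : ℝ) ≤ c := by exact_mod_cast hc
  have hc0 : (0 : ℝ) < c := by linarith
  obtain ⟨u, hu⟩ : ∃ u : ℝ, u = 1 / (40 * c) := ⟨_, rfl⟩
  have hu0 : 0 < u := by rw [hu]; positivity
  have hu1 : u ≤ 1 / 40 := by
    rw [hu]
    apply one_div_le_one_div_of_le (by norm_num)
    linarith
  have hcu : c * u = 1 / 40 := by rw [hu]; field_simp
  have h20 : 1 / (20 * (c : ℝ)) = 2 * u := by rw [hu]; field_simp; norm_num
  rw [h20]
  rcases le_or_gt (1 / 2 + u) q with h | h
  · refine (tail_le_one h0 h1 _ _).trans ?_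
    have h2 : 0 ≤ 2 - 2 * u := by linarith
    have h3 := mul_le_mul_of_nonneg_left h h2
    nlinarith
  · -- the tail of one event less
    have hstep := tail_step h0 h1 (2 * (18 * c ^ 2) + 2 * c) (18 * c ^ 2)
    have hq1 : 1 / 2 + u ≤ 1 := by linarith
    have hm := tail_mono h0 h.le hq1 (2 * (18 * c ^ 2) + 2 * c) (18 * c ^ 2)
    have hsq := tail_sq (by linarith : (0 : ℝ) ≤ 1 / 2 + u) hq1 (2 * (18 * c ^ 2) + 2 * c)
      (18 * c ^ 2)
    have hhalf := tail_half c (18 * c ^ 2) hc le_rfl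
    obtain ⟨g, hg⟩ : ∃ g : ℝ, g = tail (2 * (18 * c ^ 2) + 2 * c) (18 * c ^ 2) (1 / 2 + u) :=
      ⟨_, rfl⟩
    rw [← hg] at hm hsq
    have hg0 : 0 ≤ g := by
      rw [hg]; exact tail_nonneg (by linarith) hq1 _ _
    have e1 : 2 * (1 / 2 + u) - 1 = 2 * u := by ring
    rw [e1] at hsq
    -- the growth
    have hP : (1 + (2 * u) ^ 2) ^ (2 * (18 * c ^ 2) + 2 * c) ≤ 1 / (1 - 38 / 400) := by
      have hB := one_add_mul_le_pow (a := -((2 * u) ^ 2)) (by nlinarith)
        (2 * (18 * c ^ 2) + 2 * c)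
      have h2 : (((2 * (18 * c ^ 2) + 2 * c : ℕ)) : ℝ) * -((2 * u) ^ 2) ≥ -(38 / 400) := by
        push_cast
        have h3 : (2 * u) ^ 2 * c ^ 2 = 1 / 400 := by
          have : (2 * u) ^ 2 * c ^ 2 = 4 * (c * u) ^ 2 := by ring
          rw [this, hcu]; norm_num
        have h4 : (2 * u) ^ 2 * c ≤ (2 * u) ^ 2 * c ^ 2 := by
          apply mul_le_mul_of_nonneg_left _ (sq_nonneg _)
          nlinarith
        nlinarith
      have h5 : (1 : ℝ) - 38 / 400 ≤ (1 + -((2 * u) ^ 2)) ^ (2 * (18 * c ^ 2) + 2 * c) := by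
        linarith
      have h6 : (1 + (2 * u) ^ 2) ^ (2 * (18 * c ^ 2) + 2 * c) *
          (1 + -((2 * u) ^ 2)) ^ (2 * (18 * c ^ 2) + 2 * c) ≤ 1 := by
        rw [← mul_pow]
        apply pow_le_one₀
        · have : (2 * u) ^ 2 ≤ 1 := by nlinarith
          nlinarith [sq_nonneg (2 * u)]
        · nlinarith [sq_nonneg ((2 * u) ^ 2)]
      have h7 : (0 : ℝ) ≤ (1 + (2 * u) ^ 2) ^ (2 * (18 * c ^ 2) + 2 * c) := by positivity
      rw [le_div_iff₀ (by norm_num)]
      exact (mul_le_mul_of_nonneg_left h5 h7).trans h6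
    have hg2 : g ^ 2 ≤ (911 / 1000) ^ 2 := by
      have hP0 : (0 : ℝ) ≤ (1 + (2 * u) ^ 2) ^ (2 * (18 * c ^ 2) + 2 * c) := by positivity
      calc g ^ 2 ≤ 3 / 4 * (1 + (2 * u) ^ 2) ^ (2 * (18 * c ^ 2) + 2 * c) :=
            hsq.trans (mul_le_mul_of_nonneg_right hhalf hP0)
        _ ≤ 3 / 4 * (1 / (1 - 38 / 400)) := mul_le_mul_of_nonneg_left hP (by norm_num)
        _ ≤ (911 / 1000) ^ 2 := by norm_num
    have hg1 : g ≤ 911 / 1000 := by
      have := abs_le_of_sq_le_sq' hg2 (by norm_num)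
      exact this.2
    have h3 : (((18 * c ^ 2 : ℕ) : ℝ) + 1) *
        tail (2 * (18 * c ^ 2) + 2 * c + 1) (18 * c ^ 2 + 1) q ≤
        (((2 * (18 * c ^ 2) + 2 * c : ℕ) : ℝ) + 1) * q * (911 / 1000) := by
      refine hstep.trans (mul_le_mul_of_nonneg_left (hm.trans hg1) (by positivity))
    have h4 : 36 * c ^ 2 + 2 * c + 1 = 2 * (18 * c ^ 2) + 2 * c + 1 := by ring
    rw [h4]
    push_cast at h3
    have h5 : (0 : ℝ) < 18 * c ^ 2 + 1 := by positivity
    refine le_of_mul_le_mul_left (h3.trans ?_) h5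
    have h6 : (2 * (18 * (c : ℝ) ^ 2) + 2 * c + 1) * (911 / 1000) ≤
        (18 * c ^ 2 + 1) * (2 - 2 * u) := by
      have h7 : (2 * (18 * (c : ℝ) ^ 2) + 2 * c + 1) ≤ (18 * c ^ 2 + 1) * (19 / 9) := by
        nlinarith [sq_nonneg ((c : ℝ) - 1 / 2)]
      have h8 : (39 / 20 : ℝ) ≤ 2 - 2 * u := by linarith
      have h9 := mul_le_mul_of_nonneg_left h8 h5.le
      nlinarith
    calc (2 * (18 * (c : ℝ) ^ 2) + 2 * c + 1) * q * (911 / 1000)
        = (2 * (18 * (c : ℝ) ^ 2) + 2 * c + 1) * (911 / 1000) * q := by ring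
      _ ≤ (18 * c ^ 2 + 1) * (2 - 2 * u) * q := mul_le_mul_of_nonneg_right h6 h0
      _ = (18 * c ^ 2 + 1) * ((2 - 2 * u) * q) := by ring

end Pool.Agent.U121.VC
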