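import Pool.Agent.U121.VC.Sides

set_option autoImplicit false
set_option linter.unusedSectionVars false
set_option linter.unusedVariables false

/-!
U121/VC (helper121, MP_cff830_lc): graphs computed by circuits of small depth, and jumps of the size
of the vertex covers, for the yes-instances.
-/

namespace Pool.Agent.U121.VC

open Finset DomAC0 H568R2 Pool.Agent.TH163.AC3 Pool.Agent.U47.AC
open Pool.Agent.Y601.SSE hiding flip

open scoped Classical

variable {N : ℕ} {V : Type} [Fintype V]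

/-- a large matching outside of a small set, if all covers are large -/
lemma big_mat (H : SimpleGraph V) (X0 : Finset V) {k γ : ℝ} (hX0 : (X0.card : ℝ) ≤ k)
    (hno : ∀ X, Cov H.Adj X → (1 + γ) * k ≤ X.card) :
    ∃ M : Finset (V × V), Mat M ∧ (∀ e ∈ M, e.1 ∉ X0 ∧ e.2 ∉ X0 ∧ H.Adj e.1 e.2) ∧
      γ * k / 2 ≤ M.card := by
  obtain ⟨M, hM, hmax⟩ := Finset.exists_max_image
    (univ.filter fun M : Finset (V × V) =>
      Mat M ∧ ∀ e ∈ M, e.1 ∉ X0 ∧ e.2 ∉ X0 ∧ H.Adj e.1 e.2) (fun M => M.card)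
    ⟨∅, by
      rw [mem_filter]
      refine ⟨mem_univ _, ⟨?_, ?_⟩, ?_⟩ <;> simp⟩
  rw [mem_filter] at hM
  obtain ⟨-, hMat, hMe⟩ := hM
  refine ⟨M, hMat, hMe, ?_⟩
  have hcov : Cov H.Adj (X0 ∪ (M.image Prod.fst ∪ M.image Prod.snd)) := by
    intro u v huv
    by_contra hcon
    rw [not_or] at hcon
    simp only [mem_union, mem_image, not_or, not_exists, not_and] at hcon
    obtain ⟨⟨hu0, hu1, hu2⟩, ⟨hv0, hv1, hv2⟩⟩ := hcon
    have hnew : (u, v) ∉ M := fun g => hu1 _ g rfl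
    have hdis : ∀ e ∈ M, Disjoint ({u, v} : Finset V) {e.1, e.2} := by
      intro e he
      rw [Finset.disjoint_left]
      intro a ha hb
      simp only [mem_insert, mem_singleton] at ha hb
      have h1 := hu1 e he
      have h2 := hu2 e he
      have h3 := hv1 e he
      have h4 := hv2 e he
      rcases ha with rfl | rfl <;> rcases hb with hb | hb
      · exact h1 hb.symm
      · exact h2 hb.symm
      · exact h3 hb.symm
      · exact h4 hb.symm
    have h1 := hmax (insert (u, v) M) (by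
      rw [mem_filter]
      refine ⟨mem_univ _, ⟨?_, ?_⟩, ?_⟩
      · intro e he
        rw [mem_insert] at he
        rcases he with rfl | he
        · exact huv.ne
        · exact hMat.1 e he
      · intro e he e' he' hne
        rw [mem_insert] at he he'
        rcases he with rfl | he <;> rcases he' with rfl | he'
        · exact absurd rfl hne
        · exact hdis e' he'
        · exact (hdis e he).symm
        · exact hMat.2 e he e' he' hne
      · intro e he
        rw [mem_insert] at he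
        rcases he with rfl | he
        · exact ⟨hu0, hv0, huv⟩
        · exact hMe e he)
    rw [card_insert_of_notMem hnew] at h1
    omega
  have h1 := hno _ hcov
  have h2 : (X0 ∪ (M.image Prod.fst ∪ M.image Prod.snd)).card ≤ X0.card + 2 * M.card := by
    refine (card_union_le _ _).trans ?_
    have h3 := card_union_le (M.image Prod.fst) (M.image Prod.snd)
    have h4 := card_image_le (s := M) (f := Prod.fst)
    have h5 := card_image_le (s := M) (f := Prod.snd)
    omega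
  have h3 : ((X0 ∪ (M.image Prod.fst ∪ M.image Prod.snd)).card : ℝ) ≤ X0.card + 2 * M.card := by
    exact_mod_cast h2
  linarith

theorem yes_bound {s h : ℕ} {C : Circuit (Fin N)} (hs : 1 ≤ s) {ρ : Restr (Fin N)}
    (hρ : Shallow C s h ρ) {G : (Fin N → Bool) → SimpleGraph V}
    (hE : ∀ u v, Comp C h fun x => (G x).Adj u v) {k γ : ℝ} (hk : 0 < k) (hγ : 0 < γ)
    {W : Finset (Fin N → Bool)} {f : (Fin N → Bool) → Bool}
    (hyes : ∀ x ∈ W, f x = true → ∃ X : Finset V, Cov (G x).Adj X ∧ (X.card : ℝ) ≤ k)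
    (hno : ∀ x ∈ W, f x = false → ∀ X : Finset V, Cov (G x).Adj X → (1 + γ) * k ≤ X.card) :
    Ex half (fun x => ((univ.filter fun i => ρ i = none ∧ Qyes W f (ov ρ x) i).card : ℝ)) ≤
      6 * (1 + Fintype.card V * √(2 / (γ * k))) * s := by
  choose t ht1 ht2 using fun u v => (hE u v).dt hs hρ
  obtain ⟨m, hm⟩ : ∃ m : ℕ, m = ⌈γ * k / 2⌉₊ := ⟨_, rfl⟩
  have hgk : 0 < γ * k / 2 := by positivity
  have hm1 : γ * k / 2 ≤ m := by rw [hm]; exact Nat.le_ceil _
  have hm0 : 0 < m := by rw [hm]; exact Nat.ceil_pos.2 hgk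
  have hmr : (0 : ℝ) < m := by exact_mod_cast hm0
  have hmr1 : (1 : ℝ) ≤ m := by exact_mod_cast hm0
  obtain ⟨p, hp⟩ : ∃ p : ℝ, p = √(1 / m) := ⟨_, rfl⟩
  have hp0 : 0 ≤ p := by rw [hp]; exact Real.sqrt_nonneg _
  have hp2 : (m : ℝ) * p ^ 2 = 1 := by
    rw [hp, Real.sq_sqrt (by positivity)]
    field_simp
  have hp1 : p ≤ 1 := by
    rw [hp]
    apply Real.sqrt_le_one.2
    rw [div_le_one hmr]
    exact hmr1
  have hpk : p ≤ √(2 / (γ * k)) := by
    rw [hp]
    apply Real.sqrt_le_sqrt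
    rw [div_le_div_iff₀ hmr (by positivity)]
    linarith
  obtain ⟨cov, hcov⟩ : ∃ cov : (Fin N → Bool) → Finset V, ∀ x, ov ρ x ∈ W → f (ov ρ x) = true →
      Cov (G (ov ρ x)).Adj (cov x) ∧ ((cov x).card : ℝ) ≤ k := by
    refine ⟨fun x => if h : ov ρ x ∈ W ∧ f (ov ρ x) = true then
      (hyes _ h.1 h.2).choose else ∅, fun x h1 h2 => ?_⟩
    beta_reduce
    rw [dif_pos ⟨h1, h2⟩]
    exact (hyes _ h1 h2).choose_spec
  have hmean := jump_mean (fun x u v => (G (ov ρ x)).Adj u v) cov hs t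
    (fun x u v => by rw [ht2]; exact decide_eq_true_iff) ht1
    (univ.filter fun x => ov ρ x ∈ W ∧ f (ov ρ x) = true)
    (fun x hx u v huv => by
      rw [mem_filter] at hx
      exact (hcov x hx.2.1 hx.2.2).1 u v huv)
    (fun x => univ.filter fun i => ρ i = none ∧ Qyes W f (ov ρ x) i) hp0 hp1 hp2
    (fun x hx i hi => by
      rw [mem_filter] at hx hi
      obtain ⟨-, hi0, hi1, hi2, hi3, hi4⟩ := hi
      obtain ⟨M, hM1, hM2, hM3⟩ := big_mat (G (fl i (ov ρ x))) (cov x)
        (hcov x hx.2.1 hx.2.2).2 (hno _ hi2 hi4)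
      have hmM : m ≤ M.card := by
        rw [hm]
        exact Nat.ceil_le.2 hM3
      obtain ⟨M', hM', hc⟩ := Finset.exists_subset_card_eq hmM
      refine ⟨M', hc, ⟨fun e he => hM1.1 e (hM' he), fun e he e' he' =>
        hM1.2 e (hM' he) e' (hM' he')⟩, fun e he => ?_⟩
      have h3 := hM2 e (hM' he)
      refine ⟨h3.1, h3.2.1, ?_⟩
      show (G (ov ρ (Y601.SSE.flip i x))).Adj e.1 e.2
      rw [ov_flip ρ i hi0]
      exact h3.2.2)
    (fun x hx => by
      rw [Finset.filter_eq_empty_iff]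
      rintro i - ⟨-, h1, -, h2, -⟩
      exact hx (mem_filter.2 ⟨mem_univ _, h1, h2⟩))
  rw [Ex_half, Fintype.card_fin]
  refine hmean.trans ?_
  apply mul_le_mul_of_nonneg_right _ (Nat.cast_nonneg _)
  have h1 : p * Fintype.card V ≤ Fintype.card V * √(2 / (γ * k)) := by
    rw [mul_comm]
    exact mul_le_mul_of_nonneg_left hpk (Nat.cast_nonneg _)
  linarith

/-- the bound for graphs without weights -/
theorem yes_main (h : ℕ) : ∃ X0 : ℝ, 0 < X0 ∧ ∀ {N : ℕ} {V : Type} [Fintype V]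
    {C : Circuit (Fin N)} {G : (Fin N → Bool) → SimpleGraph V} {w : (Fin N → Bool) → V → ℝ}
    {W : Finset (Fin N → Bool)} {f : (Fin N → Bool) → Bool} {k ρ₀ : ℝ},
    Data h C G w W f k ρ₀ → (∀ x v, w x v = 1) → 1 < ρ₀ → ∀ X : ℝ, X0 ≤ X →
    X ≤ avgSens W f / (12 * (1 + Fintype.card V * √(2 / ((ρ₀ - 1) * k)))) →
    (2 : ℝ) ^ (X ^ (1 / (h + 1 : ℝ)) / 100) ≤ C.size * N := by
  obtain ⟨X0, hX0, hmain⟩ := main_gen h
  refine ⟨X0, hX0, ?_⟩
  intro N V _ C G w W f k ρ₀ hD hw1 hρ X hX hX'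
  have hpos : 0 < X := lt_of_lt_of_le hX0 hX
  have hγ : 0 < ρ₀ - 1 := by linarith
  have hsum : ∀ (x : Fin N → Bool) (Z : Finset V), ∑ v ∈ Z, w x v = Z.card := by
    intro x Z
    rw [Finset.sum_congr rfl fun v _ => hw1 x v, Finset.sum_const, nsmul_eq_mul, mul_one]
  have hB0 : (1 : ℝ) / 2 ≤ 6 * (1 + Fintype.card V * √(2 / ((ρ₀ - 1) * k))) := by
    have : 0 ≤ (Fintype.card V : ℝ) * √(2 / ((ρ₀ - 1) * k)) := by positivity
    linarith
  have hXB : X ≤ avgQ (Qyes W f) / (6 * (1 + Fintype.card V * √(2 / ((ρ₀ - 1) * k)))) := by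
    rw [avg_yes, div_div]
    refine hX'.trans (le_of_eq ?_)
    congr 1
    ring
  have h1 := hmain C (Qyes W f) hB0 (fun s hs ρ hρ' => yes_bound hs hρ' hD.edge hD.pos hγ
    (fun x hx hf => by
      obtain ⟨Z, hZ1, hZ2⟩ := hD.yes x hx hf
      rw [hsum] at hZ2
      exact ⟨Z, hZ1, hZ2⟩)
    (fun x hx hf Z hZ => by
      have h2 := hD.no x hx hf Z hZ
      rw [hsum] at h2
      have e1 : 1 + (ρ₀ - 1) = ρ₀ := by ring
      rw [e1]
      exact h2)) (hX.trans hXB)
  refine le_trans ?_ h1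
  apply Real.rpow_le_rpow_of_exponent_le (by norm_num)
  apply div_le_div_of_nonneg_right _ (by norm_num)
  exact Real.rpow_le_rpow hpos.le hXB (by positivity)

end Pool.Agent.U121.VC
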